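import Pool.Agent.Lib.MP_fee02f_an.Defs
import Pool.Agent.Lib.MP_fee02f_an.RR.Defs

/-!
Property (RD) for reductive groups (MP_fee02f_an): topological groups which act on hull spaces
(definitions; part T).
-/

set_option autoImplicit false

namespace RDT

open RapidDecay

/-- A homomorphism `φ : H → G` is uniformly proper if for every compact set `K` of `G` there are a
compact set `K'` of `H` and a number `N` such that for every `h` in `G` the elements `g` of `H`
with `φ g` in `h K h⁻¹` lie in at most `N` translates of `l K' l⁻¹` for some `l` in `H`. -/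
def UHom {H G : Type*} [Group H] [TopologicalSpace H] [Group G] [TopologicalSpace G]
    (φ : H →* G) : Prop :=
  ∀ K : Set G, IsCompact K → ∃ (K' : Set H) (N : ℕ), IsCompact K' ∧
    ∀ h : G, ∃ (l : H) (s : Finset H), s.card ≤ N ∧ ∀ g : H,
      h⁻¹ * φ g * h ∈ K → ∃ t ∈ s, l⁻¹ * (t⁻¹ * g) * l ∈ K'

/-- uniformly discrete homomorphisms -/
def UDiscHom {Γ G : Type*} [Group Γ] [Group G] [TopologicalSpace G] (φ : Γ →* G) : Prop :=
  ∀ K : Set G, IsCompact K → ∃ b : ℕ, ∀ h : G, {γ : Γ | h⁻¹ * φ γ * h ∈ K}.encard ≤ b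

/-- a locally compact group which acts on a hull space such that the elements which move a point by
at most `R` are contained in at most `N` translates of a conjugate of a compact set, where `N` and the
compact set depend only on `R` -/
def AdmH.{u, w} (G : Type w) [Group G] [TopologicalSpace G] : Prop :=
  (∃ K ∈ nhds (1 : G), IsCompact K) ∧
  ∃ (X : Type u) (_ : MulAction G X) (S : HullSpace G X), Nonempty X ∧
    ∀ R : ℝ, ∃ (K : Set G) (N : ℕ), IsCompact K ∧ ∀ x : X, ∃ (h : G) (s : Finset G), s.card ≤ N ∧
      ∀ g : G, S.d (g • x) x ≤ R → ∃ t ∈ s, h⁻¹ * (t⁻¹ * g) * h ∈ K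

end RDT
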