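import Pool.Agent.Lib.MP_fee02f_an.TT.Defs

/-!
T01: restriction of hull spaces along a homomorphism; `AdmH` passes to uniformly proper
homomorphisms.
-/

set_option autoImplicit false

namespace RDT

open RapidDecay

/-- restriction of the group -/
def comap {G G' X : Type*} [Group G] [Group G'] [MulAction G X] [MulAction G' X]
    (φ : G' → G) (h : ∀ (g : G') (x : X), g • x = φ g • x) (S : HullSpace G X) :
    HullSpace G' X where
  C := S.C
  one_le := S.one_le
  d := S.d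
  d_nonneg := S.d_nonneg
  d_comm := S.d_comm
  d_tri := S.d_tri
  d_smul := by
    intro g x y
    rw [h, h]
    exact S.d_smul (φ g) x y
  hl := S.hl
  hl_congr := S.hl_congr
  hl_smul := by
    intro g u I
    have e : (fun i => g • u i) = fun i => φ g • u i := funext fun i => h g (u i)
    rw [e, h]
    exact S.hl_smul (φ g) u I
  v := S.v
  mono := S.mono
  bdd := S.bdd
  close := S.close
  μ := S.μ
  cov := S.cov

theorem UHom.of_one {H G : Type*} [Group H] [TopologicalSpace H] [Group G] [TopologicalSpace G]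
    (φ : H →* G) (hU : ∀ K : Set G, IsCompact K → ∃ K' : Set H, IsCompact K' ∧
      ∀ h : G, ∃ l : H, ∀ g : H, h⁻¹ * φ g * h ∈ K → l⁻¹ * g * l ∈ K') : UHom φ := by
  intro K hK
  obtain ⟨K', hK', h⟩ := hU K hK
  refine ⟨K', 1, hK', fun x => ?_⟩
  obtain ⟨l, hl⟩ := h x
  refine ⟨l, {1}, by simp, fun g hg => ⟨1, by simp, ?_⟩⟩
  rw [inv_one, one_mul]
  exact hl g hg

open scoped Pointwise in
theorem AdmH.hom.{u, w} {H G : Type w} [Group G] [TopologicalSpace G] [IsTopologicalGroup G]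
    [Group H] [TopologicalSpace H] (hG : AdmH.{u, w} G) (φ : H →* G)
    (h0 : ∃ K ∈ nhds (1 : H), IsCompact K) (hU : UHom φ) : AdmH.{u, w} H := by
  classical
  obtain ⟨-, X, aX, S, hne, hK⟩ := hG
  let aX' : MulAction H X := MulAction.compHom X φ
  refine ⟨h0, X, aX', comap (fun g : H => φ g) (fun g x => rfl) S, hne, ?_⟩
  intro R
  obtain ⟨K, N, hKc, hKN⟩ := hK R
  obtain ⟨K', N', hK', hl⟩ := hU (K⁻¹ * K) (hKc.inv.mul hKc)
  refine ⟨K', N * N', hK', fun u => ?_⟩
  obtain ⟨h, s, hs, hg⟩ := hKN u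
  obtain ⟨l, s', hs', hl⟩ := hl h
  -- representatives
  let f : G → H := fun t => if ht : ∃ g : H, h⁻¹ * (t⁻¹ * φ g) * h ∈ K then ht.choose else 1
  have hf : ∀ (t : G) (g : H), h⁻¹ * (t⁻¹ * φ g) * h ∈ K → h⁻¹ * (t⁻¹ * φ (f t)) * h ∈ K := by
    intro t g hgt
    have ht : ∃ g : H, h⁻¹ * (t⁻¹ * φ g) * h ∈ K := ⟨g, hgt⟩
    have e : f t = ht.choose := dif_pos ht
    rw [e]
    exact ht.choose_spec
  refine ⟨l, (s ×ˢ s').image fun p => f p.1 * p.2, ?_, fun g hgR => ?_⟩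
  · refine Finset.card_image_le.trans ?_
    rw [Finset.card_product]
    exact Nat.mul_le_mul hs hs'
  · obtain ⟨t, ht, htK⟩ := hg (φ g) hgR
    obtain ⟨t', ht', htK'⟩ := hl ((f t)⁻¹ * g) (by
      have e : h⁻¹ * φ ((f t)⁻¹ * g) * h =
          (h⁻¹ * (t⁻¹ * φ (f t)) * h)⁻¹ * (h⁻¹ * (t⁻¹ * φ g) * h) := by
        rw [map_mul, map_inv]
        group
      rw [e]
      exact Set.mul_mem_mul (Set.inv_mem_inv.2 (hf t g htK)) htK)
    refine ⟨f t * t', Finset.mem_image.2 ⟨(t, t'), Finset.mem_product.2 ⟨ht, ht'⟩, rfl⟩, ?_⟩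
    have e : l⁻¹ * ((f t * t')⁻¹ * g) * l = l⁻¹ * (t'⁻¹ * ((f t)⁻¹ * g)) * l := by group
    rw [e]
    exact htK'

theorem nhds_subgroup {G : Type*} [Group G] [TopologicalSpace G] (L : Subgroup G)
    (hL : IsClosed (L : Set G)) (h0 : ∃ K ∈ nhds (1 : G), IsCompact K) :
    ∃ K ∈ nhds (1 : L), IsCompact K := by
  obtain ⟨K, hK, hKc⟩ := h0
  refine ⟨(fun x : L => (x : G)) ⁻¹' K, ?_, ?_⟩
  · exact continuous_subtype_val.continuousAt.preimage_mem_nhds (by simpa using hK)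
  · exact hL.isClosedEmbedding_subtypeVal.isCompact_preimage hKc

/-- closed uniformly embedded subgroups -/
theorem AdmH.subgroup.{u, w} {G : Type w} [Group G] [TopologicalSpace G] [IsTopologicalGroup G]
    (hG : AdmH.{u, w} G) (L : Subgroup G) (hL : IsClosed (L : Set G)) (hU : UHom L.subtype) :
    AdmH.{u, w} L :=
  AdmH.hom hG L.subtype (nhds_subgroup L hL hG.1) hU

end RDT
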