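import Pool.Agent.Lib.MP_fee02f_an.TT.T01

/-!
T02: finite products of hull spaces and of groups with `AdmH`.
-/

set_option autoImplicit false

namespace RDT

open RapidDecay

section Prod

variable {ι : Type} [Fintype ι] {G : ι → Type*} {X : ι → Type*} [∀ i, Group (G i)]
  [∀ i, MulAction (G i) (X i)]

theorem pi_cov (S : ∀ i, HullSpace (G i) (X i)) (C : ℝ) (hC : ∑ i, (S i).C ≤ C) (R : ℝ)
    (hR : 1 ≤ R) : ∃ 𝒱 : Set (Set (∀ i, X i)),
      (∀ V ∈ 𝒱, ∀ x ∈ V, ∀ y ∈ V, ∑ i, (S i).d (x i) (y i) ≤ C * R) ∧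
      (∀ x y z : ∀ i, X i, ∑ i, (S i).d (x i) (y i) ≤ R → ∑ i, (S i).d (y i) (z i) ≤ R →
        ∃ V ∈ 𝒱, x ∈ V ∧ y ∈ V ∧ z ∈ V) ∧
      ∀ x, {V ∈ 𝒱 | x ∈ V}.encard ≤ ((∏ i, (S i).μ : ℕ) : ℕ∞) := by
  classical
  have h := fun i => (S i).cov R hR
  choose 𝒱 h1 h2 h3 using h
  refine ⟨{V | ∃ W : ∀ i, Set (X i), (∀ i, W i ∈ 𝒱 i) ∧ V = Set.pi Set.univ W}, ?_, ?_, ?_⟩
  · rintro _ ⟨W, hW, rfl⟩ x hx y hy
    calc ∑ i, (S i).d (x i) (y i) ≤ ∑ i, (S i).C * R :=
          Finset.sum_le_sum fun i _ => h1 i (W i) (hW i) _ (hx i trivial) _ (hy i trivial)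
      _ = (∑ i, (S i).C) * R := (Finset.sum_mul _ _ _).symm
      _ ≤ C * R := mul_le_mul_of_nonneg_right hC (by linarith)
  · intro x y z hxy hyz
    have hle : ∀ (a b : ∀ i, X i) (i : ι), (S i).d (a i) (b i) ≤ ∑ i, (S i).d (a i) (b i) :=
      fun a b i => Finset.single_le_sum (f := fun i => (S i).d (a i) (b i))
        (fun i _ => (S i).d_nonneg _ _) (Finset.mem_univ i)
    have h4 := fun i => h2 i (x i) (y i) (z i) ((hle x y i).trans hxy) ((hle y z i).trans hyz)
    choose W hW hx hy hz using h4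
    exact ⟨Set.pi Set.univ W, ⟨W, hW, rfl⟩, fun i _ => hx i, fun i _ => hy i, fun i _ => hz i⟩
  · intro x
    have hfin : ∀ i, {V ∈ 𝒱 i | x i ∈ V}.Finite := fun i =>
      Set.finite_of_encard_le_coe (h3 i (x i))
    have hcard : ∀ i, (hfin i).toFinset.card ≤ (S i).μ := by
      intro i
      have h5 := h3 i (x i)
      rw [(hfin i).encard_eq_coe_toFinset_card] at h5
      exact_mod_cast h5
    have hsub : {V ∈ {V | ∃ W : ∀ i, Set (X i), (∀ i, W i ∈ 𝒱 i) ∧ V = Set.pi Set.univ W} | x ∈ V} ⊆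
        (((Fintype.piFinset fun i => (hfin i).toFinset).image fun W => Set.pi Set.univ W :
          Finset (Set (∀ i, X i))) : Set (Set (∀ i, X i))) := by
      rintro _ ⟨⟨W, hW, rfl⟩, hx⟩
      rw [Finset.mem_coe, Finset.mem_image]
      refine ⟨W, Fintype.mem_piFinset.2 fun i => ?_, rfl⟩
      rw [Set.Finite.mem_toFinset]
      exact ⟨hW i, hx i trivial⟩
    refine (Set.encard_le_encard hsub).trans ?_
    rw [Set.encard_coe_eq_coe_finsetCard]
    refine Nat.cast_le.2 (Finset.card_image_le.trans ?_)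
    rw [Fintype.card_piFinset]
    exact Finset.prod_le_prod' fun i _ => hcard i

theorem pi_close (S : ∀ i, HullSpace (G i) (X i)) (C : ℝ) (hC1 : 1 ≤ C)
    (θ : ℝ) (hθ : 0 < θ) : ∃ η K : ℝ, 0 < η ∧ ∀ R : ℝ, 1 ≤ R → ∀ (u : ℕ → ∀ i, X i)
      (I I' : Finset ℕ) (z : ∀ i, X i), I'.Nonempty → I' ⊆ I →
      (∀ k ∈ I, ∑ i, (S i).d (u k i) (z i) ≤ C * R) →
      (∑ i, (S i).v (C * R) (fun k => u k i) I) / (1 + Fintype.card ι) -
        (∑ i, (S i).v (C * R) (fun k => u k i) I') / (1 + Fintype.card ι) ≤ η →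
      ∑ i, (S i).d ((S i).hl (fun k => u k i) I') ((S i).hl (fun k => u k i) I) ≤ θ * R + K := by
  classical
  have hn : (0 : ℝ) < 1 + Fintype.card ι := by positivity
  have h := fun i => (S i).close (θ / (C * (1 + Fintype.card ι))) (by positivity)
  choose η K hη h using h
  refine ⟨(1 + ∑ i, (η i)⁻¹)⁻¹ / (1 + Fintype.card ι), ∑ i, K i, ?_, ?_⟩
  · have : 0 ≤ ∑ i, (η i)⁻¹ := Finset.sum_nonneg fun i _ => (inv_pos.2 (hη i)).le
    positivity
  · intro R hR u I I' z hne hI hz hv
    have hη' : ∀ i, (1 + ∑ j, (η j)⁻¹)⁻¹ ≤ η i := by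
      intro i
      have h5 : (η i)⁻¹ ≤ 1 + ∑ j, (η j)⁻¹ := by
        have := Finset.single_le_sum (f := fun j => (η j)⁻¹)
          (fun j _ => (inv_pos.2 (hη j)).le) (Finset.mem_univ i)
        linarith
      rw [← inv_inv (η i)]
      exact inv_anti₀ (inv_pos.2 (hη i)) h5
    rw [← sub_div, ← Finset.sum_sub_distrib, div_le_div_iff_of_pos_right hn] at hv
    have hR' : 1 ≤ C * R := one_le_mul_of_one_le_of_one_le hC1 hR
    have hle : ∀ (a b : ∀ i, X i) (i : ι), (S i).d (a i) (b i) ≤ ∑ i, (S i).d (a i) (b i) :=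
      fun a b i => Finset.single_le_sum (f := fun i => (S i).d (a i) (b i))
        (fun i _ => (S i).d_nonneg _ _) (Finset.mem_univ i)
    have hi : ∀ i, (S i).d ((S i).hl (fun k => u k i) I') ((S i).hl (fun k => u k i) I) ≤
        θ / (C * (1 + Fintype.card ι)) * (C * R) + K i := by
      intro i
      refine h i (C * R) hR' (fun k => u k i) I I' (z i) hne hI (fun k hk => ?_) ?_
      · refine (hle _ _ i).trans ((hz k hk).trans ?_)
        have h6 : 1 ≤ (S i).C := (S i).one_le
        nlinarith [mul_le_mul_of_nonneg_right h6 (by linarith : (0 : ℝ) ≤ C * R)]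
      · refine le_trans ?_ (hη' i)
        refine le_trans ?_ hv
        exact Finset.single_le_sum (f := fun i => (S i).v (C * R) (fun k => u k i) I -
          (S i).v (C * R) (fun k => u k i) I')
          (fun j _ => sub_nonneg.2 ((S j).mono _ _ _ _ hne hI)) (Finset.mem_univ i)
    refine (Finset.sum_le_sum fun i _ => hi i).trans ?_
    rw [Finset.sum_add_distrib, Finset.sum_const, nsmul_eq_mul, Finset.card_univ]
    have h7 : (Fintype.card ι : ℝ) * (θ / (C * (1 + Fintype.card ι)) * (C * R)) ≤ θ * R := by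
      have h8 : (Fintype.card ι : ℝ) * (θ / (C * (1 + Fintype.card ι)) * (C * R)) =
          θ * R * (Fintype.card ι / (1 + Fintype.card ι)) := by
        have : C ≠ 0 := by positivity
        field_simp
      rw [h8]
      have h9 : (Fintype.card ι : ℝ) / (1 + Fintype.card ι) ≤ 1 := by
        rw [div_le_one hn]
        linarith
      have h10 : 0 ≤ θ * R := by positivity
      nlinarith
    linarith

/-- products of hull spaces -/
noncomputable def pi (S : ∀ i, HullSpace (G i) (X i)) :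
    HullSpace (∀ i, G i) (∀ i, X i) where
  C := 1 + ∑ i, (S i).C
  one_le := by
    have : 0 ≤ ∑ i, (S i).C := Finset.sum_nonneg fun i _ => by linarith [(S i).one_le]
    linarith
  d x y := ∑ i, (S i).d (x i) (y i)
  d_nonneg x y := Finset.sum_nonneg fun i _ => (S i).d_nonneg _ _
  d_comm x y := Finset.sum_congr rfl fun i _ => (S i).d_comm _ _
  d_tri x y z := by
    rw [← Finset.sum_add_distrib]
    exact Finset.sum_le_sum fun i _ => (S i).d_tri _ _ _
  d_smul g x y := Finset.sum_congr rfl fun i _ => (S i).d_smul _ _ _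
  hl u I := fun i => (S i).hl (fun k => u k i) I
  hl_congr u v I hI h := funext fun i => (S i).hl_congr _ _ _ hI fun k hk => congrFun (h k hk) i
  hl_smul g u I hI := funext fun i => (S i).hl_smul (g i) (fun k => u k i) I hI
  v R u I := (∑ i, (S i).v ((1 + ∑ i, (S i).C) * R) (fun k => u k i) I) / (1 + Fintype.card ι)
  mono R u I I' hne hI := by
    have hn : (0 : ℝ) < 1 + Fintype.card ι := by positivity
    rw [div_le_div_iff_of_pos_right hn]
    exact Finset.sum_le_sum fun i _ => (S i).mono _ _ _ _ hne hI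
  bdd R hR z := by
    have hn : (0 : ℝ) < 1 + Fintype.card ι := by positivity
    have hC1 : 1 ≤ 1 + ∑ i, (S i).C := by
      have : 0 ≤ ∑ i, (S i).C := Finset.sum_nonneg fun i _ => by linarith [(S i).one_le]
      linarith
    have hR' : 1 ≤ (1 + ∑ i, (S i).C) * R := one_le_mul_of_one_le_of_one_le hC1 hR
    have h := fun i => (S i).bdd ((1 + ∑ i, (S i).C) * R) hR' (z i)
    choose a h using h
    refine ⟨(∑ i, a i) / (1 + Fintype.card ι), fun u I hI hz => ?_⟩
    rw [← sub_div, abs_div, abs_of_pos hn, div_le_one hn, ← Finset.sum_sub_distrib]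
    refine (Finset.abs_sum_le_sum_abs _ _).trans ?_
    have h1 : ∀ i ∈ Finset.univ, |(S i).v ((1 + ∑ i, (S i).C) * R) (fun k => u k i) I - a i| ≤
        (1 : ℝ) := by
      intro i _
      refine h i (fun k => u k i) I hI fun k hk => ?_
      have h6 : 1 ≤ (S i).C := (S i).one_le
      have h7 : (S i).d (u k i) (z i) ≤ ∑ i, (S i).d (u k i) (z i) :=
        Finset.single_le_sum (f := fun i => (S i).d (u k i) (z i))
          (fun i _ => (S i).d_nonneg _ _) (Finset.mem_univ i)
      have h8 := hz k hk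
      nlinarith [mul_le_mul_of_nonneg_right h6 (by linarith : (0 : ℝ) ≤ (1 + ∑ i, (S i).C) * R)]
    refine (Finset.sum_le_sum h1).trans ?_
    rw [Finset.sum_const, nsmul_eq_mul, Finset.card_univ, mul_one]
    linarith
  close θ hθ := by
    have hC1 : 1 ≤ 1 + ∑ i, (S i).C := by
      have : 0 ≤ ∑ i, (S i).C := Finset.sum_nonneg fun i _ => by linarith [(S i).one_le]
      linarith
    exact pi_close S _ hC1 θ hθ
  μ := ∏ i, (S i).μ
  cov R hR := pi_cov S _ (by linarith) R hR

end Prod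

theorem AdmH.pi.{u, w} {ι : Type} [Finite ι] (G : ι → Type w) [∀ i, Group (G i)]
    [∀ i, TopologicalSpace (G i)] (hG : ∀ i, AdmH.{u, w} (G i)) : AdmH.{u, w} (∀ i, G i) := by
  classical
  have := Fintype.ofFinite ι
  unfold AdmH at hG
  choose hloc X aX S hne hK using hG
  refine ⟨?_, ∀ i, X i, inferInstance, RDT.pi S, inferInstance, ?_⟩
  · choose K hKn hKc using hloc
    refine ⟨Set.pi Set.univ K, ?_, isCompact_univ_pi hKc⟩
    exact set_pi_mem_nhds Set.finite_univ fun i _ => hKn i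
  · intro R
    have h1 := fun i => hK i R
    choose K N hKc hKN using h1
    refine ⟨Set.pi Set.univ K, ∏ i, N i, isCompact_univ_pi hKc, ?_⟩
    intro u
    have h2 := fun i => hKN i (u i)
    choose h s hs hg using h2
    refine ⟨h, Fintype.piFinset s, ?_, ?_⟩
    · rw [Fintype.card_piFinset]
      exact Finset.prod_le_prod' fun i _ => hs i
    · intro g hle
      have h3 : ∀ i, ∃ t ∈ s i, (h i)⁻¹ * (t⁻¹ * g i) * h i ∈ K i := by
        intro i
        apply hg i
        refine le_trans ?_ hle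
        exact Finset.single_le_sum (f := fun i => (S i).d (g i • u i) (u i))
          (fun i _ => (S i).d_nonneg _ _) (Finset.mem_univ i)
      choose t ht htK using h3
      refine ⟨t, Fintype.mem_piFinset.2 ht, ?_⟩
      intro i _
      exact htK i

end RDT
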