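import Pool.Agent.Lib.MP_fee02f_an.TT.Defs
import Pool.Agent.Lib.MP_fee02f_an.TT.T01
import Pool.Agent.Lib.MP_fee02f_an.RR.R13

/-!
T03: uniformly discrete homomorphisms to groups with `AdmH`: property (RD).
-/

set_option autoImplicit false

open scoped Pointwise

namespace RDT

open RapidDecay

section Count

variable {G : Type*} [Group G] [TopologicalSpace G] [IsTopologicalGroup G]

theorem exists_compact_mul (hloc : ∃ K ∈ nhds (1 : G), IsCompact K) (Γ : Subgroup G)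
    [CompactSpace (G ⧸ Γ)] : ∃ C : Set G, IsCompact C ∧ ∀ g : G, ∃ c ∈ C, ∃ γ : Γ, g = c * γ := by
  obtain ⟨K, hK, hKc⟩ := hloc
  have hop : ∀ g : G, IsOpen ((QuotientGroup.mk : G → G ⧸ Γ) ''
      ((fun x => g⁻¹ * x) ⁻¹' interior K)) := fun g =>
    QuotientGroup.isOpenMap_coe _ (isOpen_interior.preimage (continuous_const_mul _))
  have hcov : (Set.univ : Set (G ⧸ Γ)) ⊆ ⋃ g : G, ((QuotientGroup.mk : G → G ⧸ Γ) ''
      ((fun x => g⁻¹ * x) ⁻¹' interior K)) := by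
    intro q _
    obtain ⟨x, rfl⟩ := QuotientGroup.mk_surjective q
    rw [Set.mem_iUnion]
    refine ⟨x, x, ?_, rfl⟩
    rw [Set.mem_preimage, inv_mul_cancel]
    exact mem_interior_iff_mem_nhds.2 hK
  obtain ⟨t, ht⟩ := isCompact_univ.elim_finite_subcover _ hop hcov
  refine ⟨⋃ g ∈ t, (fun x => g * x) '' K,
    t.isCompact_biUnion (fun g _ => hKc.image (continuous_const_mul g)), ?_⟩
  intro g
  have h1 := ht (Set.mem_univ (QuotientGroup.mk (s := Γ) g))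
  simp only [Set.mem_iUnion] at h1
  obtain ⟨h, hh, x, hx, hxg⟩ := h1
  rw [QuotientGroup.eq] at hxg
  refine ⟨x, ?_, ⟨x⁻¹ * g, hxg⟩, ?_⟩
  · simp only [Set.mem_iUnion]
    refine ⟨h, hh, h⁻¹ * x, interior_subset hx, ?_⟩
    simp
  · simp

/-- cocompact lattices are uniformly discrete -/
theorem udisc_of_cocompact [T2Space G] (hloc : ∃ K ∈ nhds (1 : G), IsCompact K) (Γ : Subgroup G)
    [DiscreteTopology Γ] [CompactSpace (G ⧸ Γ)] : UDiscHom Γ.subtype := by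
  intro K hK
  obtain ⟨C, hC, hCG⟩ := exists_compact_mul hloc Γ
  have hK' : IsCompact (C⁻¹ * K * C) := (hC.inv.mul hK).mul hC
  have hcl : IsClosed (Γ : Set G) := Subgroup.isClosed_of_discrete
  have hpre : IsCompact ((Subtype.val : Γ → G) ⁻¹' (C⁻¹ * K * C)) :=
    hcl.isClosedEmbedding_subtypeVal.isCompact_preimage hK'
  have hfin : ((Subtype.val : Γ → G) ⁻¹' (C⁻¹ * K * C)).Finite := isCompact_iff_finite.mp hpre
  refine ⟨((Subtype.val : Γ → G) ⁻¹' (C⁻¹ * K * C)).ncard, fun h => ?_⟩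
  obtain ⟨c, hc, δ, hδ⟩ := hCG h⁻¹
  have hmaps : Set.MapsTo (fun γ : Γ => δ * γ * δ⁻¹) {γ : Γ | h⁻¹ * Γ.subtype γ * h ∈ K}
      ((Subtype.val : Γ → G) ⁻¹' (C⁻¹ * K * C)) := by
    intro γ hγ
    have hγ' : h⁻¹ * (γ : G) * h ∈ K := hγ
    have hh : h = (δ : G)⁻¹ * c⁻¹ := by
      rw [← inv_inv h, hδ, mul_inv_rev]
    rw [Set.mem_preimage]
    refine ⟨c⁻¹ * (h⁻¹ * (γ : G) * h), ⟨c⁻¹, Set.inv_mem_inv.2 hc, _, hγ', rfl⟩, c, hc, ?_⟩
    simp only [Subgroup.coe_mul, Subgroup.coe_inv]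
    rw [hδ, hh]
    group
  have hinj : Set.InjOn (fun γ : Γ => δ * γ * δ⁻¹) {γ : Γ | h⁻¹ * Γ.subtype γ * h ∈ K} := by
    intro a _ b _ hab
    simpa using hab
  have h1 := Set.Finite.of_injOn hmaps hinj hfin
  rw [← h1.cast_ncard_eq]
  exact Nat.cast_le.2 (Set.ncard_le_ncard_of_injOn _ hmaps hinj hfin)

end Count

/-- counting in translates: if `φ` is uniformly discrete then it has boundedly many elements in
`t l K' l⁻¹` -/
theorem encard_translate {Γ G : Type*} [Group Γ] [Group G] [TopologicalSpace G]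
    (φ : Γ →* G) {K : Set G} {b : ℕ}
    (hb : ∀ h : G, {γ : Γ | h⁻¹ * φ γ * h ∈ K⁻¹ * K}.encard ≤ b) (h t : G) :
    {γ : Γ | h⁻¹ * (t⁻¹ * φ γ) * h ∈ K}.encard ≤ b := by
  rcases Set.eq_empty_or_nonempty {γ : Γ | h⁻¹ * (t⁻¹ * φ γ) * h ∈ K} with he | ⟨γ₀, hγ₀⟩
  · rw [he]
    simp
  · refine le_trans ?_ (hb h)
    refine Set.encard_le_encard_of_injOn (f := fun γ => γ₀⁻¹ * γ) ?_ ?_
    · intro γ hγ
      have h1 : h⁻¹ * (t⁻¹ * φ γ₀) * h ∈ K := hγ₀
      have h2 : h⁻¹ * (t⁻¹ * φ γ) * h ∈ K := hγ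
      refine ⟨_, Set.inv_mem_inv.2 h1, _, h2, ?_⟩
      simp only [map_mul, map_inv]
      group
    · intro a _ c _ hac
      simpa using hac

theorem AdmH.rd.{u, w, v} {G : Type w} [Group G] [TopologicalSpace G] [IsTopologicalGroup G]
    (hG : AdmH.{u, w} G) {Γ : Type v} [Group Γ] (φ : Γ →* G) (hφ : UDiscHom φ) :
    PropertyRD Γ := by
  classical
  obtain ⟨-, X, aX, S, ⟨o⟩, hK⟩ := hG
  let aX' : MulAction Γ X := MulAction.compHom X φ
  let S' : HullSpace Γ X := comap (fun g : Γ => φ g) (fun g x => rfl) S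
  have hU : UDisc' S' := by
    intro R
    obtain ⟨K, N, hKc, hKN⟩ := hK R
    obtain ⟨b, hb⟩ := hφ (K⁻¹ * K) (hKc.inv.mul hKc)
    refine ⟨N * b, fun x => ?_⟩
    obtain ⟨h, s, hs, hg⟩ := hKN x
    have hsub : {g : Γ | S'.d (g • x) x ≤ R} ⊆
        ⋃ t ∈ s, {γ : Γ | h⁻¹ * (t⁻¹ * φ γ) * h ∈ K} := by
      intro g hgR
      obtain ⟨t, ht, htK⟩ := hg (φ g) hgR
      exact Set.mem_iUnion₂.2 ⟨t, ht, htK⟩
    refine (Set.encard_le_encard hsub).trans ?_
    have h1 : ∀ s : Finset G, (⋃ t ∈ s, {γ : Γ | h⁻¹ * (t⁻¹ * φ γ) * h ∈ K}).encard ≤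
        ((s.card * b : ℕ) : ℕ∞) := by
      intro s
      induction s using Finset.induction_on with
      | empty => simp
      | insert a s ha ih =>
        rw [Finset.set_biUnion_insert]
        refine (Set.encard_union_le _ _).trans ?_
        rw [Finset.card_insert_of_notMem ha, add_mul, one_mul, add_comm, Nat.cast_add]
        exact add_le_add ih (encard_translate φ hb h a)
    exact (h1 s).trans (Nat.cast_le.2 (Nat.mul_le_mul_right b hs))
  exact ⟨_, isLength_d S' o, rd_of_hullSpace S' hU o⟩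

end RDT
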