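import Pool.Agent.Lib.MP_fee02f_an.TT.Defs
import Pool.Agent.Lib.MP_fee02f_an.TT.T01

/-!
T04: closed subgroups all of whose compact subgroups are conjugate into a compact set; uniform
discreteness from a neighbourhood of the identity; uniform discreteness from bounded finite
subgroups.
-/

set_option autoImplicit false

namespace RDT

open RapidDecay

open scoped Pointwise

/-- Let `U` be a compact open subgroup of `G` and `L` a closed subgroup such that all compact
subgroups of `L` are conjugate in `L` into a fixed compact set.  Then `L` is uniformly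
embedded. -/
theorem UHom.of_compact_subgroups {G : Type*} [Group G] [TopologicalSpace G]
    [IsTopologicalGroup G] (U : Subgroup G) (hUo : IsOpen (U : Set G))
    (hUc : IsCompact (U : Set G)) (L : Subgroup G) (hL : IsClosed (L : Set G))
    (hM : ∃ M : Set L, IsCompact M ∧ ∀ C : Subgroup L, IsCompact (C : Set L) →
      ∃ l : L, ∀ c ∈ C, l⁻¹ * c * l ∈ M) : UHom L.subtype := by
  classical
  obtain ⟨M, hMc, hM⟩ := hM
  intro K hK
  -- finitely many cosets
  obtain ⟨T, hT⟩ : ∃ T : Finset G, K ⊆ ⋃ k ∈ T, (fun x => k * x) '' (U : Set G) := by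
    obtain ⟨T, hT⟩ := hK.elim_finite_subcover (fun k : G => (fun x => k * x) '' (U : Set G))
      (fun k => (Homeomorph.mulLeft k).isOpenMap _ hUo)
      (fun x _ => Set.mem_iUnion.2 ⟨x, ⟨1, U.one_mem, mul_one x⟩⟩)
    exact ⟨T, hT⟩
  refine ⟨M, T.card, hMc, fun h => ?_⟩
  -- the compact subgroup `L ∩ h U h⁻¹`
  let C : Subgroup L := (U.map (MulAut.conj h).toMonoidHom).comap L.subtype
  have hCmem : ∀ x : L, x ∈ C ↔ h⁻¹ * (x : G) * h ∈ U := by
    intro x
    rw [Subgroup.mem_comap, Subgroup.mem_map]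
    constructor
    · rintro ⟨u, hu, hux⟩
      have hux' : h * u * h⁻¹ = (x : G) := hux
      rw [← hux']
      have e : h⁻¹ * (h * u * h⁻¹) * h = u := by group
      rwa [e]
    · intro hx
      refine ⟨_, hx, ?_⟩
      show h * (h⁻¹ * (x : G) * h) * h⁻¹ = (x : G)
      group
  have hCc : IsCompact (C : Set L) := by
    have h1 : IsCompact ((fun x => h * x * h⁻¹) '' (U : Set G)) := hUc.image (by fun_prop)
    have h2 : (C : Set L) = (fun x : L => (x : G)) ⁻¹' ((fun x => h * x * h⁻¹) '' (U : Set G)) := by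
      ext x
      rw [SetLike.mem_coe, hCmem]
      constructor
      · intro hx
        refine ⟨_, hx, ?_⟩
        show h * (h⁻¹ * (x : G) * h) * h⁻¹ = (x : G)
        group
      · rintro ⟨u, hu, hux⟩
        have hux' : h * u * h⁻¹ = (x : G) := hux
        rw [← hux']
        have e : h⁻¹ * (h * u * h⁻¹) * h = u := by group
        rwa [e]
    rw [h2]
    exact hL.isClosedEmbedding_subtypeVal.isCompact_preimage h1
  obtain ⟨l, hl⟩ := hM C hCc
  let f : G → L := fun k =>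
    if ht : ∃ g : L, h⁻¹ * (g : G) * h ∈ (fun x => k * x) '' (U : Set G) then ht.choose else 1
  have hf : ∀ (k : G) (g : L), h⁻¹ * (g : G) * h ∈ (fun x => k * x) '' (U : Set G) →
      h⁻¹ * (f k : G) * h ∈ (fun x => k * x) '' (U : Set G) := by
    intro k g hg
    have ht : ∃ g : L, h⁻¹ * (g : G) * h ∈ (fun x => k * x) '' (U : Set G) := ⟨g, hg⟩
    have e : f k = ht.choose := dif_pos ht
    rw [e]
    exact ht.choose_spec
  refine ⟨l, T.image f, Finset.card_image_le, fun g hg => ?_⟩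
  obtain ⟨k, hk, hgk⟩ := Set.mem_iUnion₂.1 (hT hg)
  refine ⟨f k, Finset.mem_image_of_mem f hk, hl _ ?_⟩
  rw [hCmem]
  obtain ⟨u, hu, hue⟩ := hgk
  obtain ⟨v, hv, hve⟩ := hf k g ⟨u, hu, hue⟩
  have hue' : k * u = h⁻¹ * (g : G) * h := hue
  have hve' : k * v = h⁻¹ * (f k : G) * h := hve
  have e : h⁻¹ * (((f k)⁻¹ * g : L) : G) * h = v⁻¹ * u := by
    rw [Subgroup.coe_mul, Subgroup.coe_inv]
    have e1 : h⁻¹ * ((f k : G)⁻¹ * (g : G)) * h =
        (h⁻¹ * (f k : G) * h)⁻¹ * (h⁻¹ * (g : G) * h) := by group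
    rw [e1, ← hue', ← hve']
    group
  rw [e]
  exact U.mul_mem (U.inv_mem hv) hu

/-- uniform discreteness from a neighbourhood of the identity all of whose conjugates meet `φ Γ`
trivially -/
theorem udisc_of_nhds {Γ G : Type*} [Group Γ] [Group G] [TopologicalSpace G]
    [IsTopologicalGroup G] (φ : Γ →* G) (W : Set G) (hW : W ∈ nhds (1 : G))
    (h : ∀ (g : G) (γ : Γ), g⁻¹ * φ γ * g ∈ W → γ = 1) : UDiscHom φ := by
  classical
  obtain ⟨V, hVo, hV1, hVW⟩ : ∃ V : Set G, IsOpen V ∧ (1 : G) ∈ V ∧ ∀ x ∈ V, ∀ y ∈ V,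
      x⁻¹ * y ∈ W := by
    have hc : Continuous fun p : G × G => p.1⁻¹ * p.2 := by fun_prop
    have h1 : (fun p : G × G => p.1⁻¹ * p.2) ⁻¹' W ∈ nhds ((1 : G), (1 : G)) := by
      refine hc.continuousAt.preimage_mem_nhds ?_
      simpa using hW
    obtain ⟨A, hA, B, hB, hAB⟩ := mem_nhds_prod_iff.1 h1
    obtain ⟨V, hVs, hVo, hV1⟩ := mem_nhds_iff.1 (Filter.inter_mem hA hB)
    refine ⟨V, hVo, hV1, fun x hx y hy => ?_⟩
    have h2 : ((x, y) : G × G) ∈ A ×ˢ B := ⟨(hVs hx).1, (hVs hy).2⟩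
    exact hAB h2
  intro K hK
  obtain ⟨T, hT⟩ := hK.elim_finite_subcover (fun k : G => (fun x => k * x) '' V)
    (fun k => (Homeomorph.mulLeft k).isOpenMap _ hVo)
    (fun x _ => Set.mem_iUnion.2 ⟨x, ⟨1, hV1, mul_one x⟩⟩)
  refine ⟨T.card, fun g => ?_⟩
  have hex : ∀ γ : Γ, g⁻¹ * φ γ * g ∈ K → ∃ k ∈ T, g⁻¹ * φ γ * g ∈ (fun x => k * x) '' V := by
    intro γ hγ
    obtain ⟨k, hk, hkV⟩ := Set.mem_iUnion₂.1 (hT hγ)
    exact ⟨k, hk, hkV⟩
  let f : Γ → G := fun γ => if hγ : g⁻¹ * φ γ * g ∈ K then (hex γ hγ).choose else 1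
  have hf : ∀ γ : Γ, g⁻¹ * φ γ * g ∈ K → f γ ∈ T ∧ g⁻¹ * φ γ * g ∈ (fun x => f γ * x) '' V := by
    intro γ hγ
    have e : f γ = (hex γ hγ).choose := dif_pos hγ
    rw [e]
    exact (hex γ hγ).choose_spec
  rw [← Set.encard_coe_eq_coe_finsetCard]
  refine Set.encard_le_encard_of_injOn (f := f) (fun γ hγ => (hf γ hγ).1) ?_
  intro a ha b hb hab
  obtain ⟨x, hx, hxe⟩ := (hf a ha).2
  obtain ⟨y, hy, hye⟩ := (hf b hb).2
  have h1 : f a * x = g⁻¹ * φ a * g := hxe
  have h2 : f b * y = g⁻¹ * φ b * g := hye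
  have h3 : g⁻¹ * φ (a⁻¹ * b) * g = x⁻¹ * y := by
    have e1 : g⁻¹ * φ (a⁻¹ * b) * g = (g⁻¹ * φ a * g)⁻¹ * (g⁻¹ * φ b * g) := by
      rw [map_mul, map_inv]
      group
    rw [e1, ← h1, ← h2, hab]
    group
  have h4 : a⁻¹ * b = 1 := h g _ (by rw [h3]; exact hVW x hx y hy)
  exact (inv_mul_eq_one.1 h4)

/-- Let `U` be a compact open subgroup of `G` and `Γ` a discrete subgroup whose finite subgroups
have bounded order. Then `Γ` is uniformly discrete. -/
theorem udisc_of_bounded {G : Type*} [Group G] [TopologicalSpace G] [IsTopologicalGroup G]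
    [T2Space G] (U : Subgroup G) (hUo : IsOpen (U : Set G)) (hUc : IsCompact (U : Set G))
    (Γ : Subgroup G) [DiscreteTopology Γ]
    (hb : ∃ b : ℕ, ∀ F : Subgroup Γ, (F : Set Γ).Finite → (F : Set Γ).ncard ≤ b) :
    UDiscHom Γ.subtype := by
  classical
  obtain ⟨b, hb⟩ := hb
  intro K hK
  obtain ⟨T, hT⟩ : ∃ T : Finset G, K ⊆ ⋃ k ∈ T, (fun x => k * x) '' (U : Set G) := by
    obtain ⟨T, hT⟩ := hK.elim_finite_subcover (fun k : G => (fun x => k * x) '' (U : Set G))
      (fun k => (Homeomorph.mulLeft k).isOpenMap _ hUo)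
      (fun x _ => Set.mem_iUnion.2 ⟨x, ⟨1, U.one_mem, mul_one x⟩⟩)
    exact ⟨T, hT⟩
  refine ⟨T.card * b, fun h => ?_⟩
  -- the finite subgroup `Γ ∩ h U h⁻¹`
  let C : Subgroup Γ := (U.map (MulAut.conj h).toMonoidHom).comap Γ.subtype
  have hCmem : ∀ x : Γ, x ∈ C ↔ h⁻¹ * (x : G) * h ∈ U := by
    intro x
    rw [Subgroup.mem_comap, Subgroup.mem_map]
    constructor
    · rintro ⟨u, hu, hux⟩
      have hux' : h * u * h⁻¹ = (x : G) := hux
      rw [← hux']
      have e : h⁻¹ * (h * u * h⁻¹) * h = u := by group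
      rwa [e]
    · intro hx
      refine ⟨_, hx, ?_⟩
      show h * (h⁻¹ * (x : G) * h) * h⁻¹ = (x : G)
      group
  have hCf : (C : Set Γ).Finite := by
    have h1 : IsCompact ((fun x => h * x * h⁻¹) '' (U : Set G)) := hUc.image (by fun_prop)
    have h2 : (C : Set Γ) = (fun x : Γ => (x : G)) ⁻¹' ((fun x => h * x * h⁻¹) '' (U : Set G)) := by
      ext x
      rw [SetLike.mem_coe, hCmem]
      constructor
      · intro hx
        refine ⟨_, hx, ?_⟩
        show h * (h⁻¹ * (x : G) * h) * h⁻¹ = (x : G)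
        group
      · rintro ⟨u, hu, hux⟩
        have hux' : h * u * h⁻¹ = (x : G) := hux
        rw [← hux']
        have e : h⁻¹ * (h * u * h⁻¹) * h = u := by group
        rwa [e]
    have hcl : IsClosed (Γ : Set G) := Subgroup.isClosed_of_discrete
    have h3 : IsCompact (C : Set Γ) := by
      rw [h2]
      exact hcl.isClosedEmbedding_subtypeVal.isCompact_preimage h1
    exact isCompact_iff_finite.mp h3
  have hCb := hb C hCf
  have h1 : ∀ k : G, {γ : Γ | h⁻¹ * Γ.subtype γ * h ∈ (fun x => k * x) '' (U : Set G)}.encard ≤ b := by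
    intro k
    rcases Set.eq_empty_or_nonempty
      {γ : Γ | h⁻¹ * Γ.subtype γ * h ∈ (fun x => k * x) '' (U : Set G)} with he | ⟨γ₀, hγ₀⟩
    · rw [he]
      simp
    · have h5 : (C : Set Γ).encard ≤ b := by
        rw [← hCf.cast_ncard_eq]
        exact Nat.cast_le.2 hCb
      refine le_trans ?_ h5
      refine Set.encard_le_encard_of_injOn (f := fun γ => γ₀⁻¹ * γ) ?_ ?_
      · intro γ hγ
        obtain ⟨x, hx, hxe⟩ := hγ₀
        obtain ⟨y, hy, hye⟩ := hγ
        have hxe' : k * x = h⁻¹ * (γ₀ : G) * h := hxe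
        have hye' : k * y = h⁻¹ * (γ : G) * h := hye
        show γ₀⁻¹ * γ ∈ C
        rw [hCmem, Subgroup.coe_mul, Subgroup.coe_inv]
        have e1 : h⁻¹ * ((γ₀ : G)⁻¹ * (γ : G)) * h =
          (h⁻¹ * (γ₀ : G) * h)⁻¹ * (h⁻¹ * (γ : G) * h) := by group
        have e2 : h⁻¹ * ((γ₀ : G)⁻¹ * (γ : G)) * h = x⁻¹ * y := by
          rw [e1, ← hxe', ← hye']
          group
        rw [e2]
        exact U.mul_mem (U.inv_mem hx) hy
      · intro a _ c _ hac
        simpa using hac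
  have hsub : {γ : Γ | h⁻¹ * Γ.subtype γ * h ∈ K} ⊆
      ⋃ k ∈ T, {γ : Γ | h⁻¹ * Γ.subtype γ * h ∈ (fun x => k * x) '' (U : Set G)} := by
    intro γ hγ
    obtain ⟨k, hk, hkU⟩ := Set.mem_iUnion₂.1 (hT hγ)
    exact Set.mem_iUnion₂.2 ⟨k, hk, hkU⟩
  refine (Set.encard_le_encard hsub).trans ?_
  have h2 : ∀ s : Finset G, (⋃ k ∈ s,
      {γ : Γ | h⁻¹ * Γ.subtype γ * h ∈ (fun x => k * x) '' (U : Set G)}).encard ≤
      ((s.card * b : ℕ) : ℕ∞) := by
    intro s
    induction s using Finset.induction_on with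
    | empty => simp
    | insert a s ha ih =>
      rw [Finset.set_biUnion_insert]
      refine (Set.encard_union_le _ _).trans ?_
      rw [Finset.card_insert_of_notMem ha, add_mul, one_mul, add_comm, Nat.cast_add]
      exact add_le_add ih (h1 a)
  exact h2 T

end RDT
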