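import Mathlib
import Pool.Agent.Lib.MP_fee02f_an.M1
import Pool.Agent.Lib.MP_fee02f_an.TT.Defs
import Pool.Agent.Lib.MP_fee02f_an.TT.T04

/-!
T05: `GL_n` over a non-archimedean local field has a compact open subgroup and, in characteristic
zero, finite subgroups of bounded order; finite products.
-/

set_option autoImplicit false

open scoped WithZero MatrixGroups
open ValuativeRel RapidDecay

namespace RDT

namespace T05

section Alg

variable {n : ℕ}

theorem pow_expand {F : Type*} [Field F] (v : Valuation F ℤᵐ⁰) (X : Matrix (Fin n) (Fin n) F)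
    (hX : ∀ i j, v (X i j) ≤ 1) (l : ℕ) :
    ∃ Z : Matrix (Fin n) (Fin n) F, (∀ i j, v (Z i j) ≤ 1) ∧
      (1 + X) ^ l = 1 + (l : F) • X + X * X * Z := by
  induction l with
  | zero => exact ⟨0, by simp, by simp⟩
  | succ l ih =>
    obtain ⟨Z, hZ, h⟩ := ih
    refine ⟨(l : F) • 1 + Z + Z * X, ?_, ?_⟩
    · intro i j
      rw [Matrix.add_apply, Matrix.add_apply, Matrix.mul_apply]
      refine (v.map_add _ _).trans (max_le ((v.map_add _ _).trans (max_le ?_ (hZ i j))) ?_)
      · rw [Matrix.smul_apply, smul_eq_mul, map_mul]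
        have h1 : v (l : F) ≤ 1 := by
          clear h
          induction l with
          | zero => simp
          | succ l ih =>
            rw [Nat.cast_succ]
            exact (v.map_add _ _).trans (max_le ih (by simp))
        have h2 : v ((1 : Matrix (Fin n) (Fin n) F) i j) ≤ 1 := by
          rw [Matrix.one_apply]
          split_ifs <;> simp
        exact mul_le_one' h1 h2
      · apply v.map_sum_le
        intro k _
        rw [map_mul]
        exact mul_le_one' (hZ i k) (hX k j)
    · rw [pow_succ, h]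
      push_cast
      simp only [mul_add, add_mul, mul_one, one_mul, Matrix.mul_smul, Matrix.smul_mul, add_smul,
        one_smul, Matrix.mul_assoc]
      abel

theorem eq_zero {F : Type*} [Field F] (v : Valuation F ℤᵐ⁰) (X : Matrix (Fin n) (Fin n) F)
    (a : ℤᵐ⁰) (ha : a ≤ 1) (hX : ∀ i j, v (X i j) ≤ a) (l : ℕ) (hl : a < v (l : F))
    (h : (1 + X) ^ l = 1) : X = 0 := by
  by_contra hne
  obtain ⟨Z, hZ, hz⟩ := pow_expand v X (fun i j => (hX i j).trans ha) l
  rw [h] at hz
  have h1 : (l : F) • X = - (X * X * Z) := by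
    have h2 : (l : F) • X + X * X * Z = 0 := by
      have h3 : (1 : Matrix (Fin n) (Fin n) F) + ((l : F) • X + X * X * Z) = 1 + 0 := by
        rw [← add_assoc, ← hz, add_zero]
      exact add_left_cancel h3
    exact eq_neg_of_add_eq_zero_left h2
  obtain ⟨p, hp⟩ : ∃ p : Fin n × Fin n, X p.1 p.2 ≠ 0 := by
    by_contra h0
    push Not at h0
    exact hne (by ext i j; exact h0 (i, j))
  obtain ⟨⟨i0, j0⟩, -, hmax⟩ := Finset.exists_max_image (Finset.univ : Finset (Fin n × Fin n))
    (fun p => v (X p.1 p.2)) ⟨p, Finset.mem_univ _⟩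
  have hm : ∀ i j, v (X i j) ≤ v (X i0 j0) := fun i j => hmax (i, j) (Finset.mem_univ _)
  have hw : v (X i0 j0) ≠ 0 := by
    intro h0
    apply hne
    ext i j
    have h2 := hm i j
    rw [h0, le_zero_iff, Valuation.zero_iff] at h2
    simpa using h2
  have h2 : v ((X * X * Z) i0 j0) ≤ v (X i0 j0) * v (X i0 j0) := by
    rw [Matrix.mul_apply]
    apply v.map_sum_le
    intro k _
    rw [map_mul]
    calc v ((X * X) i0 k) * v (Z k j0) ≤ (v (X i0 j0) * v (X i0 j0)) * 1 := by
          apply mul_le_mul' _ (hZ k j0)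
          rw [Matrix.mul_apply]
          apply v.map_sum_le
          intro m _
          rw [map_mul]
          exact mul_le_mul' (hm _ _) (hm _ _)
      _ = _ := mul_one _
  have h3 : v (((l : F) • X) i0 j0) = v (l : F) * v (X i0 j0) := by
    rw [Matrix.smul_apply, smul_eq_mul, map_mul]
  rw [h1, Matrix.neg_apply, Valuation.map_neg] at h3
  rw [h3] at h2
  have h4 : v (l : F) ≤ v (X i0 j0) := le_of_mul_le_mul_right h2 (zero_lt_iff.mpr hw)
  exact absurd (h4.trans (hX i0 j0)) (not_le.mpr hl)

/-- a bound for the values of the prime numbers -/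
theorem exists_low {F : Type*} [Field F] [CharZero F] (v : Valuation F ℤᵐ⁰) :
    ∃ N : ℕ, ∀ l : ℕ, l.Prime → WithZero.exp (-(N : ℤ)) < v (l : F) := by
  by_cases h : ∃ p : ℕ, p.Prime ∧ v (p : F) < 1
  · obtain ⟨p, hp, hp1⟩ := h
    have hp0 : v (p : F) ≠ 0 := by
      rw [Valuation.ne_zero_iff]
      exact_mod_cast hp.ne_zero
    obtain ⟨m, hm⟩ : ∃ m : ℤ, v (p : F) = WithZero.exp m :=
      ⟨WithZero.log (v (p : F)), (WithZero.exp_log hp0).symm⟩
    refine ⟨(1 - m).toNat + 1, ?_⟩
    intro l hl
    by_cases hlp : l = p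
    · subst hlp
      rw [hm, WithZero.exp_lt_exp]
      have := Int.self_le_toNat (1 - m)
      push_cast
      linarith
    · have hco : Nat.Coprime l p := (Nat.coprime_primes hl hp).mpr hlp
      have hle : ∀ n : ℤ, v (n : F) ≤ 1 := by
        intro n
        induction n using Int.induction_on with
        | zero => simp
        | succ n ih =>
          push_cast at ih ⊢
          exact (v.map_add _ _).trans (max_le ih (by simp))
        | pred n ih =>
          push_cast at ih ⊢
          exact (v.map_sub _ _).trans (max_le ih (by simp))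
      have h1 : v (l : F) = 1 := by
        apply le_antisymm
        · exact_mod_cast hle l
        · by_contra hlt
          push Not at hlt
          have hb := Nat.gcd_eq_gcd_ab l p
          rw [hco] at hb
          have h2 : (1 : F) = (l : F) * (Nat.gcdA l p : F) + (p : F) * (Nat.gcdB l p : F) := by
            exact_mod_cast congrArg (Int.cast : ℤ → F) hb
          have h3 : v (1 : F) < 1 := by
            rw [h2]
            apply (v.map_add _ _).trans_lt
            rw [max_lt_iff, map_mul, map_mul]
            exact ⟨mul_lt_one_of_lt_of_le hlt (hle _), mul_lt_one_of_lt_of_le hp1 (hle _)⟩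
          rw [map_one] at h3
          exact lt_irrefl _ h3
      rw [h1, ← WithZero.exp_zero, WithZero.exp_lt_exp]
      push_cast
      linarith [(Nat.cast_nonneg (1 - m).toNat : (0 : ℤ) ≤ _)]
  · push Not at h
    refine ⟨1, fun l hl => lt_of_lt_of_le ?_ (h l hl)⟩
    rw [← WithZero.exp_zero, WithZero.exp_lt_exp]
    norm_num

/-- a finite group of integral matrices, congruent to one only if equal to one -/
theorem card_le_of_std {O F : Type*} [CommRing O] [Field F] [Algebra O F] [CharZero F]
    {v : Valuation F ℤᵐ⁰} (hv : v.Integers O) (N : ℕ)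
    (hN : ∀ l : ℕ, l.Prime → WithZero.exp (-(N : ℤ)) < v (l : F))
    (I : Ideal O) (hI : ∀ x ∈ I, v (algebraMap O F x) ≤ WithZero.exp (-(N : ℤ)))
    [Finite (O ⧸ I)] (H : Type*) [Group H] [Finite H]
    (ρ : H →* Matrix (Fin n) (Fin n) F) (hρ : Function.Injective ρ)
    (hint : ∀ g i j, ∃ a : O, algebraMap O F a = ρ g i j) :
    Nat.card H ≤ Nat.card (Matrix (Fin n) (Fin n) (O ⧸ I)) := by
  choose M hM using hint
  have hexp : (WithZero.exp (-(N : ℤ)) : ℤᵐ⁰) ≤ 1 := by
    rw [← WithZero.exp_zero, WithZero.exp_le_exp]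
    simp
  have hone : ∀ g : H, (∀ i j, v ((ρ g - 1) i j) ≤ WithZero.exp (-(N : ℤ))) → g = 1 := by
    intro k hk
    by_contra hne
    have hd : orderOf k ≠ 1 := by
      rwa [Ne, orderOf_eq_one_iff]
    have hd0 : 0 < orderOf k := orderOf_pos k
    set l := (orderOf k).minFac with hl
    have hlp : l.Prime := Nat.minFac_prime hd
    have hld : l ∣ orderOf k := Nat.minFac_dvd _
    set k' := k ^ (orderOf k / l) with hk'
    have hord : orderOf k' = l := orderOf_pow_orderOf_div hd0.ne' hld
    have hk1 : ∀ n : ℕ, ∀ i j, v ((ρ (k ^ n) - 1) i j) ≤ WithZero.exp (-(N : ℤ)) := by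
      intro n
      induction n with
      | zero => intro i j; simp
      | succ n ih =>
        intro i j
        have h1 : ρ (k ^ (n + 1)) - 1 = ρ (k ^ n) * (ρ k - 1) + (ρ (k ^ n) - 1) := by
          rw [pow_succ, map_mul, mul_sub, mul_one]
          abel
        rw [h1, Matrix.add_apply, Matrix.mul_apply]
        refine (v.map_add _ _).trans (max_le ?_ (ih i j))
        apply v.map_sum_le
        intro m _
        rw [map_mul]
        calc v (ρ (k ^ n) i m) * v ((ρ k - 1) m j) ≤ 1 * WithZero.exp (-(N : ℤ)) := by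
              apply mul_le_mul' _ (hk m j)
              rw [← hM]
              exact hv.map_le_one _
          _ = _ := one_mul _
    have h2 := eq_zero v (ρ k' - 1) _ hexp (hk1 _) l (hN l hlp) (by
      rw [add_sub_cancel, ← map_pow, ← hord, pow_orderOf_eq_one, map_one])
    have h3 : ρ k' = ρ 1 := by
      rw [map_one]
      exact sub_eq_zero.mp h2
    have h4 := hρ h3
    rw [h4, orderOf_one] at hord
    exact hlp.ne_one hord.symm
  apply Nat.card_le_card_of_injective
    (fun g : H => (Matrix.of (M g)).map (Ideal.Quotient.mk I))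
  intro g g' hgg
  have hgg' : ∀ i j, Ideal.Quotient.mk I (M g i j) = Ideal.Quotient.mk I (M g' i j) := by
    intro i j
    exact congrFun (congrFun hgg i) j
  have h1 : g'⁻¹ * g = 1 := by
    apply hone
    intro i j
    have h2 : ρ (g'⁻¹ * g) - 1 = ρ g'⁻¹ * (ρ g - ρ g') := by
      rw [mul_sub, ← map_mul, ← map_mul, inv_mul_cancel, map_one]
    rw [h2, Matrix.mul_apply]
    apply v.map_sum_le
    intro m _
    rw [map_mul]
    calc v (ρ g'⁻¹ i m) * v ((ρ g - ρ g') m j) ≤ 1 * WithZero.exp (-(N : ℤ)) := by
          apply mul_le_mul'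
          · rw [← hM]
            exact hv.map_le_one _
          · rw [Matrix.sub_apply, ← hM, ← hM, ← map_sub]
            apply hI
            exact Ideal.Quotient.eq.mp (hgg' m j)
      _ = _ := one_mul _
  exact (inv_mul_eq_one.mp h1).symm

variable {O F : Type*} [CommRing O] [IsDomain O] [IsPrincipalIdealRing O] [Field F]
  [Algebra O F] {v : Valuation F ℤᵐ⁰}

/-- a lattice has a basis consisting of `n` vectors -/
theorem exists_basis (hv : v.Integers O) (A : Submodule O (Fin n → F)) (hfg : A.FG)
    (hspan : Submodule.span F (A : Set (Fin n → F)) = ⊤) :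
    ∃ b : Module.Basis (Fin n) F (Fin n → F), A = Submodule.span O (Set.range b) := by
  have hfr : IsFractionRing O F := hv.isFractionRing
  have hfg : Module.Finite O A := Module.Finite.iff_fg.mpr hfg
  have htf : Module.IsTorsionFree O (Fin n → F) := by
    have h1 : Module.IsTorsionFree O F := inferInstance
    infer_instance
  have htf2 : Module.IsTorsionFree O A := inferInstance
  have hfree : Module.Free O A := Module.free_of_finite_type_torsion_free'
  let bA := Module.Free.chooseBasis O A
  let b0 : Module.Free.ChooseBasisIndex O A → (Fin n → F) := fun i => (bA i : Fin n → F)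
  have hli : LinearIndependent O b0 := by
    have h1 := bA.linearIndependent
    have h2 := h1.map' A.subtype (Submodule.ker_subtype _)
    exact h2
  have hliF : LinearIndependent F b0 := (LinearIndependent.iff_fractionRing O F).mp hli
  have hsp : Submodule.span O (Set.range b0) = A := by
    have h1 := bA.span_eq
    have h2 : Set.range b0 = A.subtype '' (Set.range bA) := by
      rw [← Set.range_comp]
      rfl
    rw [h2, Submodule.span_image, h1, Submodule.map_top, Submodule.range_subtype]
  have hspF : ⊤ ≤ Submodule.span F (Set.range b0) := by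
    rw [← hspan]
    rw [Submodule.span_le]
    intro x hx
    rw [← hsp] at hx
    exact Submodule.span_le_restrictScalars O F (Set.range b0) hx
  let bF := Module.Basis.mk hliF hspF
  have hcard : Fintype.card (Module.Free.ChooseBasisIndex O A) = n := by
    have h1 := Module.finrank_eq_card_basis bF
    rw [Module.finrank_fin_fun] at h1
    exact h1.symm
  let e : Module.Free.ChooseBasisIndex O A ≃ Fin n := Fintype.equivFinOfCardEq hcard
  refine ⟨bF.reindex e, ?_⟩
  have h3 : Set.range (bF.reindex e) = Set.range b0 := by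
    rw [Module.Basis.range_reindex]
    congr 1
    ext i : 1
    exact Module.Basis.mk_apply hliF hspF i
  rw [h3, hsp]

/-- a finite subgroup of `GL_n(F)` is conjugate to a group of integral matrices -/
theorem exists_conj (hv : v.Integers O) (H : Subgroup (GL (Fin n) F))
    (hH : (H : Set (GL (Fin n) F)).Finite) :
    ∃ g : GL (Fin n) F, ∀ h ∈ H, ∀ i j, ∃ a : O, algebraMap O F a = (g⁻¹ * h * g).1 i j := by
  classical
  let S : Set (Fin n → F) :=
    Set.range fun p : H × Fin n => (p.1 : GL (Fin n) F).1.mulVec (Pi.single p.2 1)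
  have hHf : Finite H := hH
  have hSf : S.Finite := Set.finite_range _
  have hS1 : ∀ j, (Pi.single j 1 : Fin n → F) ∈ S := fun j => ⟨(1, j), by
    show (1 : Matrix (Fin n) (Fin n) F).mulVec _ = _
    rw [Matrix.one_mulVec]⟩
  have hSinv : ∀ h ∈ H, ∀ x ∈ S, h.1.mulVec x ∈ S := by
    rintro h hh _ ⟨⟨g, j⟩, rfl⟩
    refine ⟨(⟨h, hh⟩ * g, j), ?_⟩
    show (h.1 * (g : GL (Fin n) F).1).mulVec _ = h.1.mulVec ((g : GL (Fin n) F).1.mulVec _)
    rw [Matrix.mulVec_mulVec]
  let A : Submodule O (Fin n → F) := Submodule.span O S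
  have hAspan : Submodule.span F (A : Set (Fin n → F)) = ⊤ := by
    rw [eq_top_iff]
    intro x _
    have h1 : x = ∑ i, x i • (Pi.single i (1 : F) : Fin n → F) := by
      ext j
      simp [Finset.sum_apply, Pi.single_apply]
    rw [h1]
    apply Submodule.sum_mem
    intro i _
    apply Submodule.smul_mem
    apply Submodule.subset_span
    exact Submodule.subset_span (hS1 i)
  have hAinv : ∀ h ∈ H, ∀ x ∈ A, h.1.mulVec x ∈ A := by
    intro h hh x hx
    have h1 : A ≤ A.comap ((Matrix.mulVecLin h.1).restrictScalars O) := by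
      rw [Submodule.span_le]
      intro y hy
      exact Submodule.subset_span (hSinv h hh y hy)
    exact h1 hx
  obtain ⟨b, hb⟩ := exists_basis hv A (Submodule.fg_span hSf) hAspan
  let e := Pi.basisFun F (Fin n)
  let g : GL (Fin n) F := ⟨e.toMatrix b, b.toMatrix e, Module.Basis.toMatrix_mul_toMatrix_flip _ _,
    Module.Basis.toMatrix_mul_toMatrix_flip _ _⟩
  refine ⟨g, fun h hh i j => ?_⟩
  have h1 : (g⁻¹ * h * g).1 = LinearMap.toMatrix b b (Matrix.toLin' h.1) := by
    have h2 := basis_toMatrix_mul_linearMap_toMatrix_mul_basis_toMatrix b e b e (Matrix.toLin' h.1)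
    have h3 : LinearMap.toMatrix e e (Matrix.toLin' h.1) = h.1 := by
      show LinearMap.toMatrix (Pi.basisFun F (Fin n)) (Pi.basisFun F (Fin n)) _ = _
      rw [LinearMap.toMatrix_eq_toMatrix']
      exact LinearMap.toMatrix'_toLin' _
    rw [h3] at h2
    exact h2
  rw [h1, LinearMap.toMatrix_apply]
  have h4 : h.1.mulVec (b j) ∈ A := by
    apply hAinv h hh
    rw [hb]
    exact Submodule.subset_span ⟨j, rfl⟩
  have hfr : IsFractionRing O F := hv.isFractionRing
  have htf : Module.IsTorsionFree O F := inferInstance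
  rw [hb, Module.Basis.mem_span_iff_repr_mem] at h4
  exact h4 i

end Alg

section Top

variable {F : Type*} [Field F] [ValuativeRel F] [TopologicalSpace F]
  [IsNonarchimedeanLocalField F]

variable (F) in
theorem t2 : T2Space F := by
  apply IsTopologicalAddGroup.t2Space_of_zero_sep
  intro x hx
  refine ⟨{k | valuation F k < valuation F x}, ?_, fun h => lt_irrefl (valuation F x) h⟩
  rw [IsValuativeTopology.mem_nhds_iff]
  refine ⟨Units.mk0 (valuation F x) ((valuation F).ne_zero_iff.2 hx), ?_⟩
  rintro _ ⟨z, hz, rfl⟩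
  have e : (0 : F) + z = z := zero_add z
  show valuation F (0 + z) < valuation F x
  rw [e]
  exact hz

variable (F) in
/-- integral matrices -/
noncomputable def int (n : ℕ) : Submonoid (Matrix (Fin n) (Fin n) F) where
  carrier := {g | ∀ i j, vLoc F (g i j) ≤ 1}
  one_mem' := by
    intro i j
    rw [Matrix.one_apply]
    split_ifs
    · rw [map_one]
    · rw [map_zero]; exact zero_le_one
  mul_mem' := by
    intro g h hg hh i j
    rw [Matrix.mul_apply]
    refine (vLoc F).map_sum_le (fun k _ => ?_)
    rw [map_mul]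
    exact mul_le_one' (hg i k) (hh k j)

theorem int_compact (n : ℕ) : IsCompact (int F n : Set (Matrix (Fin n) (Fin n) F)) := by
  have h : IsCompact (Set.pi Set.univ (fun _ : Fin n => Set.pi Set.univ
      (fun _ : Fin n => {x : F | vLoc F x ≤ 1}))) :=
    isCompact_univ_pi (fun _ => isCompact_univ_pi (fun _ => isCompact_ball F 1))
  have e : (int F n : Set (Matrix (Fin n) (Fin n) F)) = (Set.pi Set.univ (fun _ : Fin n =>
      Set.pi Set.univ (fun _ : Fin n => {x : F | vLoc F x ≤ 1}))) := by
    ext g
    constructor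
    · intro h i _ j _
      exact h i j
    · intro h i j
      exact h i (Set.mem_univ _) j (Set.mem_univ _)
  rw [e]
  exact h

theorem int_open (n : ℕ) : IsOpen (int F n : Set (Matrix (Fin n) (Fin n) F)) := by
  have h : IsOpen (Set.pi Set.univ (fun _ : Fin n => Set.pi Set.univ
      (fun _ : Fin n => {x : F | vLoc F x ≤ 1}))) :=
    isOpen_set_pi Set.finite_univ (fun _ _ => isOpen_set_pi Set.finite_univ
      (fun _ _ => isOpen_ball F 1 one_ne_zero))
  have e : (int F n : Set (Matrix (Fin n) (Fin n) F)) = (Set.pi Set.univ (fun _ : Fin n =>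
      Set.pi Set.univ (fun _ : Fin n => {x : F | vLoc F x ≤ 1}))) := by
    ext g
    constructor
    · intro h i _ j _
      exact h i j
    · intro h i j
      exact h i (Set.mem_univ _) j (Set.mem_univ _)
  rw [e]
  exact h

end Top

end T05

/-- `GL_n` over a non-archimedean local field has a compact open subgroup -/
theorem exists_compact_open (F : Type*) [Field F] [ValuativeRel F] [TopologicalSpace F]
    [IsNonarchimedeanLocalField F] (n : ℕ) :
    ∃ U : Subgroup (GL (Fin n) F), IsOpen (U : Set (GL (Fin n) F)) ∧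
      IsCompact (U : Set (GL (Fin n) F)) := by
  have := T05.t2 F
  refine ⟨(T05.int F n).units, ?_, Submonoid.units_isCompact (T05.int_compact n)⟩
  have e : ((T05.int F n).units : Set (GL (Fin n) F)) =
      (fun u : GL (Fin n) F => u.1) ⁻¹' (T05.int F n : Set (Matrix (Fin n) (Fin n) F)) ∩
      (fun u : GL (Fin n) F => (u⁻¹ : GL (Fin n) F).1) ⁻¹'
        (T05.int F n : Set (Matrix (Fin n) (Fin n) F)) := by
    ext u
    rw [SetLike.mem_coe, Submonoid.mem_units_iff]
    rfl
  rw [e]
  exact ((T05.int_open n).preimage Units.continuous_val).inter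
    ((T05.int_open n).preimage Units.continuous_coe_inv)

/-- the finite subgroups of `GL_n` over a local field of characteristic zero have bounded order -/
theorem finite_subgroup_bound (F : Type*) [Field F] [ValuativeRel F] [TopologicalSpace F]
    [IsNonarchimedeanLocalField F] [CharZero F] (n : ℕ) :
    ∃ b : ℕ, ∀ H : Subgroup (GL (Fin n) F), (H : Set (GL (Fin n) F)).Finite →
      (H : Set (GL (Fin n) F)).ncard ≤ b := by
  obtain ⟨π, hπ, hfin⟩ := exists_unif F
  have hv := vLoc_integers F
  obtain ⟨N, hN⟩ := T05.exists_low (vLoc F)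
  set I : Ideal 𝒪[F] := (Ideal.span {π}) ^ N with hI
  have hfinI : Finite (𝒪[F] ⧸ I) := by
    apply Ideal.finite_quotient_pow
    exact ⟨{π}, by simp⟩
  have hIv : ∀ x ∈ I, vLoc F (algebraMap 𝒪[F] F x) ≤ WithZero.exp (-(N : ℤ)) := by
    intro x hx
    rw [hI, Ideal.span_singleton_pow, Ideal.mem_span_singleton] at hx
    obtain ⟨y, rfl⟩ := hx
    rw [map_mul, map_mul, map_pow, map_pow, hπ, ← WithZero.exp_nsmul]
    calc WithZero.exp (N • (-1 : ℤ)) * vLoc F (algebraMap 𝒪[F] F y)
        ≤ WithZero.exp (N • (-1 : ℤ)) * 1 := mul_le_mul_right (hv.map_le_one y) _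
      _ = WithZero.exp (-(N : ℤ)) := by simp
  refine ⟨Nat.card (Matrix (Fin n) (Fin n) (𝒪[F] ⧸ I)), ?_⟩
  intro H hH
  obtain ⟨h, hh⟩ := T05.exists_conj hv H hH
  have hHf : Finite H := hH
  let ρ : H →* Matrix (Fin n) (Fin n) F :=
    { toFun := fun g => (h⁻¹ * (g : GL (Fin n) F) * h).1
      map_one' := by simp
      map_mul' := by
        intro a b
        rw [← Units.val_mul]
        congr 1
        simp [mul_assoc] }
  have hρ : Function.Injective ρ := by
    intro a b hab
    have h1 : h⁻¹ * (a : GL (Fin n) F) * h = h⁻¹ * (b : GL (Fin n) F) * h := Units.ext hab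
    have h2 : (a : GL (Fin n) F) = (b : GL (Fin n) F) :=
      mul_left_cancel (mul_right_cancel h1)
    exact Subtype.ext h2
  exact T05.card_le_of_std hv N hN I hIv H ρ hρ fun g i j => hh g g.2 i j

/-- finite products of groups with compact open subgroups -/
theorem exists_compact_open_pi {ι : Type*} [Finite ι] (G : ι → Type*) [∀ i, Group (G i)]
    [∀ i, TopologicalSpace (G i)]
    (h : ∀ i, ∃ U : Subgroup (G i), IsOpen (U : Set (G i)) ∧ IsCompact (U : Set (G i))) :
    ∃ U : Subgroup (∀ i, G i), IsOpen (U : Set (∀ i, G i)) ∧ IsCompact (U : Set (∀ i, G i)) := by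
  choose U hUo hUc using h
  have e : ((Subgroup.pi Set.univ U : Subgroup (∀ i, G i)) : Set (∀ i, G i)) =
      Set.pi Set.univ fun i => (U i : Set (G i)) := rfl
  refine ⟨Subgroup.pi Set.univ U, ?_, ?_⟩
  · rw [e]
    exact isOpen_set_pi Set.finite_univ fun i _ => hUo i
  · rw [e]
    exact isCompact_univ_pi hUc

/-- finite products of groups whose finite subgroups have bounded order -/
theorem finite_subgroup_bound_pi {ι : Type*} [Finite ι] (G : ι → Type*) [∀ i, Group (G i)]
    (h : ∀ i, ∃ b : ℕ, ∀ H : Subgroup (G i), (H : Set (G i)).Finite → (H : Set (G i)).ncard ≤ b) :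
    ∃ b : ℕ, ∀ H : Subgroup (∀ i, G i), (H : Set (∀ i, G i)).Finite →
      (H : Set (∀ i, G i)).ncard ≤ b := by
  have := Fintype.ofFinite ι
  choose b hb using h
  refine ⟨∏ i, b i, fun H hH => ?_⟩
  have hHf : Finite H := hH
  have h1 : ∀ i, ((H.map (Pi.evalMonoidHom G i) : Subgroup (G i)) : Set (G i)).Finite := fun i => by
    rw [Subgroup.coe_map]
    exact hH.image _
  have h1' : ∀ i, Finite (H.map (Pi.evalMonoidHom G i)) := h1
  have h2 : Nat.card H ≤ ∏ i, Nat.card (H.map (Pi.evalMonoidHom G i)) := by
    rw [← Nat.card_pi]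
    refine Nat.card_le_card_of_injective
      (fun g i => (⟨g.1 i, Subgroup.mem_map_of_mem _ g.2⟩ : H.map (Pi.evalMonoidHom G i))) ?_
    intro g g' h
    apply Subtype.ext
    funext i
    exact congrArg Subtype.val (congrFun h i)
  exact h2.trans (Finset.prod_le_prod' fun i _ => hb i _ (h1 i))

/-- subgroups (more generally groups with an injective homomorphism) of groups whose finite
subgroups have bounded order -/
theorem finite_subgroup_bound_of_injective {Γ G : Type*} [Group Γ] [Group G] (φ : Γ →* G)
    (hφ : Function.Injective φ)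
    (h : ∃ b : ℕ, ∀ H : Subgroup G, (H : Set G).Finite → (H : Set G).ncard ≤ b) :
    ∃ b : ℕ, ∀ H : Subgroup Γ, (H : Set Γ).Finite → (H : Set Γ).ncard ≤ b := by
  obtain ⟨b, hb⟩ := h
  refine ⟨b, fun H hH => ?_⟩
  have h1 : ((H.map φ : Subgroup G) : Set G) = φ '' (H : Set Γ) := Subgroup.coe_map φ H
  have h2 := hb (H.map φ) (by rw [h1]; exact hH.image _)
  rwa [h1, Set.ncard_image_of_injective _ hφ] at h2

/-- finite products of groups `GL_n` over non-archimedean local fields: compact open subgroup -/
theorem exists_compact_open_GL {ι : Type*} [Finite ι] (F : ι → Type*) [∀ i, Field (F i)]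
    [∀ i, ValuativeRel (F i)] [∀ i, TopologicalSpace (F i)] [∀ i, IsNonarchimedeanLocalField (F i)]
    (n : ι → ℕ) : ∃ U : Subgroup (∀ i, GL (Fin (n i)) (F i)),
      IsOpen (U : Set (∀ i, GL (Fin (n i)) (F i))) ∧
        IsCompact (U : Set (∀ i, GL (Fin (n i)) (F i))) :=
  exists_compact_open_pi _ fun i => exists_compact_open (F i) (n i)

/-- finite products of groups `GL_n` over non-archimedean local fields of characteristic zero:
finite subgroups have bounded order -/
theorem finite_subgroup_bound_GL {ι : Type*} [Finite ι] (F : ι → Type*) [∀ i, Field (F i)]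
    [∀ i, ValuativeRel (F i)] [∀ i, TopologicalSpace (F i)] [∀ i, IsNonarchimedeanLocalField (F i)]
    [∀ i, CharZero (F i)] (n : ι → ℕ) : ∃ b : ℕ, ∀ H : Subgroup (∀ i, GL (Fin (n i)) (F i)),
      (H : Set (∀ i, GL (Fin (n i)) (F i))).Finite →
        (H : Set (∀ i, GL (Fin (n i)) (F i))).ncard ≤ b :=
  finite_subgroup_bound_pi _ fun i => finite_subgroup_bound (F i) (n i)

/-- compact open subgroups of closed subgroups -/
theorem exists_compact_open_subgroup {G : Type*} [Group G] [TopologicalSpace G]
    (h : ∃ U : Subgroup G, IsOpen (U : Set G) ∧ IsCompact (U : Set G)) (L : Subgroup G)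
    (hL : IsClosed (L : Set G)) :
    ∃ U : Subgroup L, IsOpen (U : Set L) ∧ IsCompact (U : Set L) := by
  obtain ⟨U, hUo, hUc⟩ := h
  refine ⟨U.comap L.subtype, hUo.preimage continuous_subtype_val, ?_⟩
  exact hL.isClosedEmbedding_subtypeVal.isCompact_preimage hUc

/-- discrete subgroups of finite products of groups `GL_n` over non-archimedean local fields are
uniformly discrete if their finite subgroups have bounded order -/
theorem udisc_GL_of_bounded {ι : Type*} [Finite ι] (F : ι → Type*) [∀ i, Field (F i)]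
    [∀ i, ValuativeRel (F i)] [∀ i, TopologicalSpace (F i)] [∀ i, IsNonarchimedeanLocalField (F i)]
    (n : ι → ℕ) (Γ : Subgroup (∀ i, GL (Fin (n i)) (F i))) [DiscreteTopology Γ]
    (hb : ∃ b : ℕ, ∀ H : Subgroup Γ, (H : Set Γ).Finite → (H : Set Γ).ncard ≤ b) :
    UDiscHom Γ.subtype := by
  have ht : ∀ i, T2Space (F i) := fun i => T05.t2 (F i)
  have ht2 : ∀ i, T2Space (GL (Fin (n i)) (F i)) := fun i => inferInstance
  obtain ⟨U, hUo, hUc⟩ := exists_compact_open_GL F n
  exact udisc_of_bounded U hUo hUc Γ hb

/-- discrete subgroups of finite products of groups `GL_n` over non-archimedean local fields of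
characteristic zero are uniformly discrete -/
theorem udisc_GL_charZero {ι : Type*} [Finite ι] (F : ι → Type*) [∀ i, Field (F i)]
    [∀ i, ValuativeRel (F i)] [∀ i, TopologicalSpace (F i)] [∀ i, IsNonarchimedeanLocalField (F i)]
    [∀ i, CharZero (F i)] (n : ι → ℕ) (Γ : Subgroup (∀ i, GL (Fin (n i)) (F i)))
    [DiscreteTopology Γ] : UDiscHom Γ.subtype :=
  udisc_GL_of_bounded F n Γ (finite_subgroup_bound_of_injective Γ.subtype
    Γ.subtype_injective (finite_subgroup_bound_GL F n))

end RDT
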