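import Mathlib
import Pool.Agent.Lib.MP_fee02f_an.GG.G04

/-!
T07: self-adjoint algebraic groups over `ℝ` and `ℂ` are closed and coarsely midpoint closed.
-/

set_option autoImplicit false

open scoped MatrixGroups ComplexOrder

namespace RDT

open RDG

/-! ### real exponential polynomials -/

/-- real exponential polynomials -/
noncomputable def expPoly : Submodule ℝ (ℝ → ℝ) :=
  Submodule.span ℝ (Set.range fun μ t : ℝ => Real.exp (μ * t))

theorem expPoly_mul {f g : ℝ → ℝ} (hf : f ∈ expPoly) (hg : g ∈ expPoly) : f * g ∈ expPoly := by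
  have h : expPoly * expPoly ≤ expPoly := by
    unfold expPoly
    rw [Submodule.span_mul_span]
    refine Submodule.span_mono ?_
    rintro _ ⟨_, ⟨μ, rfl⟩, _, ⟨ν, rfl⟩, rfl⟩
    refine ⟨μ + ν, ?_⟩
    funext t
    simp only [Pi.mul_apply]
    rw [← Real.exp_add, add_mul]
  exact h (Submodule.mul_mem_mul hf hg)

theorem expPoly_exp (μ : ℝ) : (fun t : ℝ => Real.exp (μ * t)) ∈ expPoly :=
  Submodule.subset_span ⟨μ, rfl⟩

theorem expPoly_smul (c : ℝ) {f : ℝ → ℝ} (hf : f ∈ expPoly) : (fun t => c * f t) ∈ expPoly :=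
  expPoly.smul_mem c hf

theorem expPoly_const (c : ℝ) : (fun _ : ℝ => c) ∈ expPoly := by
  have h := expPoly_smul c (expPoly_exp 0)
  simp only [zero_mul, Real.exp_zero, mul_one] at h
  exact h

theorem expPoly_zero {f : ℝ → ℝ} (hf : f ∈ expPoly) (h : ∀ n : ℕ, f n = 0) (t : ℝ) : f t = 0 := by
  unfold expPoly at hf
  obtain ⟨c, rfl⟩ := Finsupp.mem_span_range_iff_exists_finsupp.mp hf
  have hinj : Function.Injective fun μ : ℝ => powersHom ℝ (Real.exp μ) := by
    intro μ ν hμν
    have := (powersHom ℝ).injective hμν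
    exact Real.exp_injective this
  have hli := (linearIndependent_monoidHom (Multiplicative ℕ) ℝ).comp _ hinj
  have hc : c = 0 := by
    refine linearIndependent_iff.mp hli c ?_
    funext n
    have h1 := h (Multiplicative.toAdd n)
    rw [Finsupp.linearCombination_apply, Finsupp.sum, Finset.sum_apply]
    rw [Finsupp.sum, Finset.sum_apply] at h1
    rw [Pi.zero_apply, ← h1]
    refine Finset.sum_congr rfl fun μ _ => ?_
    simp only [Pi.smul_apply, Function.comp_apply, smul_eq_mul, powersHom_apply]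
    rw [mul_comm μ, Real.exp_nat_mul]
  rw [hc]
  simp

theorem expPoly_eval {σ : Type*} (p : MvPolynomial σ ℝ) (x : σ → ℝ → ℝ)
    (hx : ∀ i, x i ∈ expPoly) : (fun t => MvPolynomial.eval (fun i => x i t) p) ∈ expPoly := by
  induction p using MvPolynomial.induction_on with
  | C a =>
    simp only [MvPolynomial.eval_C]
    exact expPoly_const a
  | add p q hp hq =>
    simp only [map_add]
    exact expPoly.add_mem hp hq
  | mul_X p i hp =>
    simp only [map_mul, MvPolynomial.eval_X]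
    exact expPoly_mul hp (hx i)

theorem expPoly_sum {ι : Type*} (s : Finset ι) (f : ι → ℝ → ℝ) (hf : ∀ i ∈ s, f i ∈ expPoly) :
    (fun t => ∑ i ∈ s, f i t) ∈ expPoly := by
  have h := Submodule.sum_mem expPoly hf
  have e : (∑ i ∈ s, f i) = fun t => ∑ i ∈ s, f i t := by
    funext t
    rw [Finset.sum_apply]
  rw [← e]
  exact h

/-! ### one parameter groups -/

variable {F : Type*} [RCLike F]

/-- the diagonal matrix `exp (t l)` -/
noncomputable def eD (l : ℝ) (t : ℝ) : Fˣ :=
  Units.mk0 ((Real.exp (l * t) : ℝ) : F) (by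
    rw [Ne, RCLike.ofReal_eq_zero]
    exact (Real.exp_pos _).ne')

theorem eD_val (l t : ℝ) : ((eD l t : Fˣ) : F) = ((Real.exp (l * t) : ℝ) : F) := rfl

theorem eD_add (l s t : ℝ) : (eD l (s + t) : Fˣ) = eD l s * eD l t := by
  apply Units.ext
  rw [Units.val_mul, eD_val, eD_val, eD_val, mul_add, Real.exp_add, RCLike.ofReal_mul]

theorem eD_zero (l : ℝ) : (eD l 0 : Fˣ) = 1 := by
  apply Units.ext
  rw [eD_val, mul_zero, Real.exp_zero, RCLike.ofReal_one, Units.val_one]

theorem norm_eD (l t : ℝ) : ‖((eD l t : Fˣ) : F)‖ = Real.exp (l * t) := by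
  rw [eD_val, RCLike.norm_ofReal, abs_of_pos (Real.exp_pos _)]

/-- the one parameter group `U exp (t l) U⁻¹` -/
noncomputable def oneP {n : ℕ} (U : GL (Fin n) F) (l : Fin n → ℝ) (t : ℝ) : GL (Fin n) F :=
  U * dg (fun k => eD (l k) t) * U⁻¹

theorem oneP_add {n : ℕ} (U : GL (Fin n) F) (l : Fin n → ℝ) (s t : ℝ) :
    oneP U l (s + t) = oneP U l s * oneP U l t := by
  have h : (dg (fun k => (eD (l k) (s + t) : Fˣ)) : GL (Fin n) F) =
      dg (fun k => eD (l k) s) * dg (fun k => eD (l k) t) := by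
    rw [dg_mul]
    congr 1
    funext k
    exact eD_add _ _ _
  unfold oneP
  rw [h]
  group

theorem oneP_zero {n : ℕ} (U : GL (Fin n) F) (l : Fin n → ℝ) : oneP U l 0 = 1 := by
  have h : (dg (fun k => (eD (l k) 0 : Fˣ)) : GL (Fin n) F) = 1 := by
    apply Units.ext
    rw [dg_val, Units.val_one, ← Matrix.diagonal_one]
    congr 1
    funext k
    rw [eD_zero, Units.val_one]
  unfold oneP
  rw [h]
  group

theorem oneP_neg {n : ℕ} (U : GL (Fin n) F) (l : Fin n → ℝ) (t : ℝ) :
    oneP U l (-t) = (oneP U l t)⁻¹ := by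
  rw [eq_inv_iff_mul_eq_one, ← oneP_add, neg_add_cancel, oneP_zero]

theorem oneP_nat {n : ℕ} (U : GL (Fin n) F) (l : Fin n → ℝ) (m : ℕ) :
    oneP U l m = oneP U l 1 ^ m := by
  induction m with
  | zero => rw [Nat.cast_zero, oneP_zero, pow_zero]
  | succ m ih => rw [Nat.cast_succ, oneP_add, ih, pow_succ]

theorem oneP_entry {n : ℕ} (U : GL (Fin n) F) (l : Fin n → ℝ) (t : ℝ) (i j : Fin n) :
    (oneP U l t).1 i j = ∑ k, ((Real.exp (l k * t) : ℝ) : F) * (U.1 i k * (U⁻¹).1 k j) := by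
  unfold oneP
  rw [Units.val_mul, Units.val_mul, dg_val, Matrix.mul_apply]
  refine Finset.sum_congr rfl fun k _ => ?_
  rw [Matrix.mul_diagonal, eD_val]
  ring

theorem oneP_re {n : ℕ} (U : GL (Fin n) F) (l : Fin n → ℝ) (i j : Fin n) :
    (fun t => RCLike.re ((oneP U l t).1 i j)) ∈ expPoly := by
  have e : (fun t => RCLike.re ((oneP U l t).1 i j)) =
      fun t => ∑ k, RCLike.re (U.1 i k * (U⁻¹).1 k j) * Real.exp (l k * t) := by
    funext t
    rw [oneP_entry, map_sum]
    refine Finset.sum_congr rfl fun k _ => ?_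
    rw [RCLike.re_ofReal_mul, mul_comm]
  rw [e]
  exact expPoly_sum _ _ fun k _ => expPoly_smul _ (expPoly_exp _)

theorem oneP_im {n : ℕ} (U : GL (Fin n) F) (l : Fin n → ℝ) (i j : Fin n) :
    (fun t => RCLike.im ((oneP U l t).1 i j)) ∈ expPoly := by
  have e : (fun t => RCLike.im ((oneP U l t).1 i j)) =
      fun t => ∑ k, RCLike.im (U.1 i k * (U⁻¹).1 k j) * Real.exp (l k * t) := by
    funext t
    rw [oneP_entry, map_sum]
    refine Finset.sum_congr rfl fun k _ => ?_
    rw [RCLike.im_ofReal_mul, mul_comm]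
  rw [e]
  exact expPoly_sum _ _ fun k _ => expPoly_smul _ (expPoly_exp _)

/-- the group is the set of zeros of real polynomials in the real and imaginary parts -/
def RealAlg {n : ℕ} (G : Subgroup (GL (Fin n) F)) : Prop :=
  ∃ S : Set (MvPolynomial (Fin n × Fin n × Bool) ℝ), ∀ g, g ∈ G ↔
    ∀ p ∈ S, MvPolynomial.eval (fun q => if q.2.2 then RCLike.im (g.1 q.1 q.2.1)
      else RCLike.re (g.1 q.1 q.2.1)) p = 0

theorem oneP_mem {n : ℕ} {G : Subgroup (GL (Fin n) F)} (hG : RealAlg G) (U : GL (Fin n) F)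
    (l : Fin n → ℝ) (h1 : oneP U l 1 ∈ G) (t : ℝ) : oneP U l t ∈ G := by
  obtain ⟨S, hS⟩ := hG
  rw [hS]
  intro p hp
  refine expPoly_zero (f := fun t => MvPolynomial.eval (fun q : Fin n × Fin n × Bool =>
    if q.2.2 then RCLike.im ((oneP U l t).1 q.1 q.2.1)
      else RCLike.re ((oneP U l t).1 q.1 q.2.1)) p) ?_ ?_ t
  · refine expPoly_eval p (fun (q : Fin n × Fin n × Bool) t =>
      if q.2.2 then RCLike.im ((oneP U l t).1 q.1 q.2.1)
        else RCLike.re ((oneP U l t).1 q.1 q.2.1)) ?_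
    rintro ⟨i, j, b⟩
    cases b
    · exact oneP_re U l i j
    · exact oneP_im U l i j
  · intro m
    have h2 : oneP U l (m : ℝ) ∈ G := by
      rw [oneP_nat]
      exact Subgroup.pow_mem _ h1 m
    exact (hS _).1 h2 p hp

/-- Hermitian positive definite matrices -/
theorem exists_oneP {n : ℕ} (c : GL (Fin n) F) : ∃ (U : GL (Fin n) F) (l : Fin n → ℝ),
    U.1 ∈ Matrix.unitaryGroup (Fin n) F ∧ oneP U l 1 = star c * c := by
  have hinj : Function.Injective c.1.mulVec :=
    Matrix.mulVec_injective_iff_isUnit.mpr c.isUnit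
  have hpd : (c.1.conjTranspose * c.1).PosDef := Matrix.PosDef.conjTranspose_mul_self c.1 hinj
  have hH : (c.1.conjTranspose * c.1).IsHermitian := hpd.isHermitian
  have hst := hH.spectral_theorem
  set V : Matrix.unitaryGroup (Fin n) F := hH.eigenvectorUnitary with hV
  set U : GL (Fin n) F := Unitary.toUnits V with hU
  have hU1 : U.1 = (V : Matrix (Fin n) (Fin n) F) := rfl
  have hU2 : (U⁻¹).1 = star (V : Matrix (Fin n) (Fin n) F) := rfl
  have hpos : ∀ i, 0 < hH.eigenvalues i := fun i => hpd.eigenvalues_pos i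
  refine ⟨U, fun i => Real.log (hH.eigenvalues i), V.2, ?_⟩
  apply Units.ext
  unfold oneP
  have hd : (dg (fun k => (eD (Real.log (hH.eigenvalues k)) 1 : Fˣ)) : GL (Fin n) F).1 =
      Matrix.diagonal (RCLike.ofReal ∘ hH.eigenvalues) := by
    rw [dg_val]
    congr 1
    funext k
    rw [eD_val, mul_one, Real.exp_log (hpos k)]
    rfl
  rw [Units.val_mul, Units.val_mul, hd, hU1, hU2]
  have hc : (star c * c).1 = c.1.conjTranspose * c.1 := rfl
  rw [hc]
  rw [Unitary.conjStarAlgAut_apply] at hst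
  exact hst.symm

theorem ln_unitary {n : ℕ} (v : AbsoluteValue F ℝ) (hv : ∀ x, v x = ‖x‖) (A : GL (Fin n) F)
    (hA : A.1 ∈ Matrix.unitaryGroup (Fin n) F) :
    ln v A ≤ (n + 2) * Real.log ((n : ℝ) ^ 2 + 1) := by
  have key : ∀ B : Matrix (Fin n) (Fin n) F, B ∈ Matrix.unitaryGroup (Fin n) F →
      se v B ≤ (n : ℝ) ^ 2 + 1 := by
    intro B hB
    unfold se
    calc ∑ i, ∑ j, v (B i j) ≤ ∑ _i : Fin n, ∑ _j : Fin n, (1 : ℝ) := by
          refine Finset.sum_le_sum fun i _ => Finset.sum_le_sum fun j _ => ?_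
          rw [hv]
          exact entry_norm_bound_of_unitary hB i j
      _ = (n : ℝ) ^ 2 := by
          simp only [Finset.sum_const, Finset.card_univ, Fintype.card_fin, nsmul_eq_mul]
          ring
      _ ≤ _ := by linarith
  have hinv : (A⁻¹).1 ∈ Matrix.unitaryGroup (Fin n) F := by
    have h1 : (A⁻¹).1 = star A.1 := by
      have h2 : star A.1 * A.1 = 1 := (Matrix.mem_unitaryGroup_iff').mp hA
      have h3 : A.1 * (A⁻¹).1 = 1 := by
        rw [← Units.val_mul, mul_inv_cancel, Units.val_one]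
      calc (A⁻¹).1 = (star A.1 * A.1) * (A⁻¹).1 := by rw [h2, one_mul]
        _ = star A.1 := by rw [mul_assoc, h3, mul_one]
    rw [h1]
    exact Unitary.star_mem hA
  refine ln_le_of_se v A _ ?_ (key _ hA) (key _ hinv)
  have : 0 ≤ (n : ℝ) ^ 2 := sq_nonneg _
  linarith

theorem star_oneP {n : ℕ} (U : GL (Fin n) F) (hU : U.1 ∈ Matrix.unitaryGroup (Fin n) F)
    (l : Fin n → ℝ) (t : ℝ) : star (oneP U l t) = oneP U l t := by
  have h2 : star U * U = 1 := by
    apply Units.ext
    exact (Matrix.mem_unitaryGroup_iff').mp hU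
  have h3 : star U = U⁻¹ := eq_inv_of_mul_eq_one_left h2
  have h4 : star (U⁻¹) = U := by
    rw [← h3, star_star]
  have h5 : star (dg (fun k => (eD (l k) t : Fˣ)) : GL (Fin n) F) = dg (fun k => eD (l k) t) := by
    apply Units.ext
    have : (star (dg (fun k => (eD (l k) t : Fˣ)) : GL (Fin n) F)).1 =
        (dg (fun k => (eD (l k) t : Fˣ)) : GL (Fin n) F).1.conjTranspose := rfl
    rw [this, dg_val, Matrix.diagonal_conjTranspose]
    congr 1
    funext k
    rw [Pi.star_apply, eD_val, RCLike.star_def, RCLike.conj_ofReal]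
  unfold oneP
  rw [star_mul, star_mul, h3, h4, h5]
  group

/-- self-adjoint algebraic groups are coarsely midpoint closed -/
theorem cmid_selfAdjoint {n : ℕ} (v : AbsoluteValue F ℝ) (hv : ∀ x, v x = ‖x‖)
    (G : Subgroup (GL (Fin n) F)) (hs : ∀ g ∈ G, star g ∈ G) (hG : RealAlg G) : CMid v G := by
  refine ⟨(n + 2) * Real.log ((n : ℝ) ^ 2 + 1), ?_⟩
  intro c hc
  obtain ⟨U, l, hU, h1⟩ := exists_oneP c
  have hmem : ∀ t, oneP U l t ∈ G :=
    oneP_mem hG U l (by rw [h1]; exact G.mul_mem (hs c hc) hc)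
  have hlog : 0 ≤ (n + 2) * Real.log ((n : ℝ) ^ 2 + 1) := by
    have : 0 ≤ Real.log ((n : ℝ) ^ 2 + 1) := Real.log_nonneg (by nlinarith [sq_nonneg (n : ℝ)])
    positivity
  have hUU : star U * U = 1 := by
    apply Units.ext
    exact (Matrix.mem_unitaryGroup_iff').mp hU
  refine ⟨c * oneP U l (-(1 / 2)) * U, U⁻¹, fun k => eD (l k) (1 / 2), fun k => eD (l k) (1 / 4),
    ?_, ?_, ?_, ?_, c * oneP U l (-(1 / 4)), G.mul_mem hc (hmem _), ?_⟩
  · have h2 : c * oneP U l (-(1 / 2)) * U * dg (fun k => (eD (l k) (1 / 2) : Fˣ)) * U⁻¹ =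
        c * (oneP U l (-(1 / 2)) * oneP U l (1 / 2)) := by
      unfold oneP
      group
    rw [h2, ← oneP_add, neg_add_cancel, oneP_zero, mul_one]
  · refine ln_unitary v hv _ ?_
    rw [Matrix.mem_unitaryGroup_iff']
    have h2 : star (c * oneP U l (-(1 / 2)) * U) * (c * oneP U l (-(1 / 2)) * U) = 1 := by
      rw [star_mul, star_mul, star_oneP U hU]
      calc star U * (oneP U l (-(1 / 2)) * star c) * (c * oneP U l (-(1 / 2)) * U)
          = star U * (oneP U l (-(1 / 2)) * (star c * c) * oneP U l (-(1 / 2))) * U := by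
            simp only [mul_assoc]
        _ = star U * (oneP U l (-(1 / 2)) * oneP U l 1 * oneP U l (-(1 / 2))) * U := by rw [h1]
        _ = star U * 1 * U := by
            rw [← oneP_add, ← oneP_add]
            have : (-(1 / 2) + 1 + -(1 / 2) : ℝ) = 0 := by norm_num
            rw [this, oneP_zero]
        _ = 1 := by rw [mul_one, hUU]
    have h3 := congrArg Units.val h2
    exact h3
  · rw [ln_inv]
    exact ln_unitary v hv U hU
  · intro i
    rw [hv, hv, norm_eD, norm_eD, Real.log_exp, Real.log_exp]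
    have : 2 * (l i * (1 / 4)) - l i * (1 / 2) = 0 := by ring
    rw [this, abs_zero]
    exact hlog
  · have h2 : (c * oneP U l (-(1 / 4)))⁻¹ * (c * oneP U l (-(1 / 2)) * U *
        dg (fun k => (eD (l k) (1 / 4) : Fˣ))) =
        (oneP U l (-(1 / 4)))⁻¹ * oneP U l (-(1 / 2)) * oneP U l (1 / 4) * U := by
      unfold oneP
      group
    rw [h2, ← oneP_neg, ← oneP_add, ← oneP_add]
    have : (- -(1 / 4) + -(1 / 2) + 1 / 4 : ℝ) = 0 := by norm_num
    rw [this, oneP_zero, one_mul]
    exact ln_unitary v hv U hU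

theorem isClosed_realAlg {n : ℕ} (G : Subgroup (GL (Fin n) F)) (hG : RealAlg G) :
    IsClosed (G : Set (GL (Fin n) F)) := by
  obtain ⟨S, hS⟩ := hG
  have e : (G : Set (GL (Fin n) F)) = ⋂ p ∈ S, {g : GL (Fin n) F |
      MvPolynomial.eval (fun q : Fin n × Fin n × Bool => if q.2.2 then RCLike.im (g.1 q.1 q.2.1)
      else RCLike.re (g.1 q.1 q.2.1)) p = 0} := by
    ext g
    rw [SetLike.mem_coe, hS]
    simp only [Set.mem_iInter, Set.mem_ofPred_eq]
  rw [e]
  refine isClosed_biInter fun p _ => ?_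
  refine isClosed_eq ?_ continuous_const
  refine (MvPolynomial.continuous_eval p).comp ?_
  refine continuous_pi fun q => ?_
  have hc : Continuous fun g : GL (Fin n) F => g.1 q.1 q.2.1 :=
    (Units.continuous_val).matrix_elem q.1 q.2.1
  by_cases hb : q.2.2
  · simp only [hb, if_true]
    exact RCLike.continuous_im.comp hc
  · simp only [hb]
    exact RCLike.continuous_re.comp hc

end RDT
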