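import Pool.Agent.Lib.MP_fee02f_an.TT.Defs
import Pool.Agent.Lib.MP_fee02f_an.MS.OfRGeo

/-!
T08: locally compact groups with coarse midpoints and relatively compact balls have `AdmH`.
-/

set_option autoImplicit false

namespace RDT

open RapidDecay

theorem admH_of_rgeo.{w} {G : Type w} [Group G] [TopologicalSpace G]
    (h0 : ∃ K ∈ nhds (1 : G), IsCompact K) (M : RDG.RGeo G)
    (hM : ∀ R : ℝ, ∃ K : Set G, IsCompact K ∧ ∀ g, M.ℓ g ≤ R → g ∈ K) : AdmH.{w, w} G := by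
  refine ⟨h0, G × ActVia (MonoidHom.id G), inferInstance, (rgeoMid M (MonoidHom.id G)).hull,
    ⟨((1 : G), (show ActVia (MonoidHom.id G) from (1 : G)))⟩, fun R => ?_⟩
  obtain ⟨K, hK, hR⟩ := hM R
  refine ⟨K, 1, hK, fun x => ⟨(show G from x.2), {1}, by simp, fun g hg => ⟨1, by simp, ?_⟩⟩⟩
  refine hR _ ?_
  have h1 : M.ℓ ((g * (show G from x.2))⁻¹ * (show G from x.2)) ≤ R := hg
  rw [← M.inv] at h1
  have e : ((g * (show G from x.2))⁻¹ * (show G from x.2))⁻¹ =
      (show G from x.2)⁻¹ * (1⁻¹ * g) * (show G from x.2) := by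
    group
  rw [e] at h1
  exact h1

end RDT
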