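import Pool.Agent.Lib.MP_fee02f_an.TT.T01
import Pool.Agent.Lib.MP_fee02f_an.TT.T08
import Pool.Agent.Lib.MP_fee02f_an.GG.G15
import Pool.Agent.Lib.MP_fee02f_an.GG.G17
import Pool.Agent.Lib.MP_fee02f_an.GG.G19

/-!
T09: closed coarsely midpoint closed subgroups of `GL_n(F)` have `AdmH`.
-/

set_option autoImplicit false

namespace RDT

open RapidDecay RDG

variable {F : Type*} [Field F] [TopologicalSpace F] [IsTopologicalRing F] [T2Space F]

theorem locallyCompact_of_vtop {F : Type*} [Field F] [TopologicalSpace F] [IsTopologicalRing F]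
    {v : AbsoluteValue F ℝ} (hv : VTop F v) : LocallyCompactSpace F := by
  have h : {x : F | v x ≤ 1} ∈ nhds (0 : F) := by
    refine Filter.mem_of_superset ((hv.open_ball 0 1).mem_nhds (by simp)) fun y hy => ?_
    have hy' : v (y - 0) < 1 := hy
    rw [sub_zero] at hy'
    exact hy'.le
  exact (hv.compact 1).locallyCompactSpace_of_mem_nhds_of_addGroup h

theorem nhds_gl {F : Type*} [Field F] [TopologicalSpace F] [IsTopologicalRing F] [T2Space F]
    {v : AbsoluteValue F ℝ} (hv : VTop F v) (n : ℕ) :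
    ∃ K ∈ nhds (1 : GL (Fin n) F), IsCompact K := by
  have := locallyCompact_of_vtop hv
  have : LocallyCompactSpace (Matrix (Fin n) (Fin n) F) :=
    inferInstanceAs (LocallyCompactSpace (Fin n → Fin n → F))
  have : LocallyCompactSpace (GL (Fin n) F) := inferInstance
  obtain ⟨K, hK, h1⟩ := exists_compact_mem_nhds (1 : GL (Fin n) F)
  exact ⟨K, h1, hK⟩

theorem admH_sub.{w} {F : Type w} [Field F] [TopologicalSpace F] [IsTopologicalRing F] [T2Space F]
    {v : AbsoluteValue F ℝ} (hv : VTop F v) {n : ℕ} (H : Subgroup (GL (Fin n) F))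
    (hc : IsClosed (H : Set (GL (Fin n) F))) (hH : CMid v H) : AdmH.{w, w} H := by
  obtain ⟨M, hM, -⟩ := rgeo_sub v hv.locv H hH
  refine admH_of_rgeo (nhds_subgroup H hc (nhds_gl hv n)) M fun R => ?_
  obtain ⟨K, hK, hR⟩ := compact_ln (n := n) hv R
  refine ⟨(fun x : H => (x : GL (Fin n) F)) ⁻¹' K,
    hc.isClosedEmbedding_subtypeVal.isCompact_preimage hK, fun g hg => ?_⟩
  rw [hM] at hg
  exact hR _ hg

theorem admH_gl.{w} {F : Type w} [Field F] [TopologicalSpace F] [IsTopologicalRing F] [T2Space F]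
    {v : AbsoluteValue F ℝ} (hv : VTop F v) (n : ℕ) : AdmH.{w, w} (GL (Fin n) F) := by
  obtain ⟨M, hM, -⟩ := rgeo_gl (n := n) v hv.locv
  refine admH_of_rgeo (nhds_gl hv n) M fun R => ?_
  obtain ⟨K, hK, hR⟩ := compact_ln (n := n) hv R
  refine ⟨K, hK, fun g hg => ?_⟩
  rw [hM] at hg
  exact hR _ hg

end RDT
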