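import Pool.Agent.Lib.MP_fee02f_an.TT.T09
import Pool.Agent.Lib.MP_fee02f_an.GG.G17
import Pool.Agent.Lib.MP_fee02f_an.GG.G18

/-!
T10: locally compact normed fields and non-archimedean local fields.
-/

set_option autoImplicit false

namespace RDT

open RapidDecay RDG

theorem vtop_of_proper (F : Type*) [NontriviallyNormedField F] [ProperSpace F] :
    ∃ v : AbsoluteValue F ℝ, (∀ x, v x = ‖x‖) ∧ VTop F v := by
  refine ⟨NormedField.toAbsoluteValue F, fun x => rfl, ?_, ?_, ?_, ?_⟩
  · obtain ⟨x, hx⟩ := NormedField.exists_one_lt_norm F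
    have hx0 : x ≠ 0 := by
      rintro rfl
      rw [norm_zero] at hx
      linarith
    exact ⟨Units.mk0 x hx0, hx⟩
  · intro x r
    have h : {y : F | NormedField.toAbsoluteValue F (y - x) < r} = Metric.ball x r := by
      ext y
      rw [Metric.mem_ball, dist_eq_norm]
      rfl
    rw [h]
    exact Metric.isOpen_ball
  · intro x U hU
    obtain ⟨ε, hε, h⟩ := Metric.mem_nhds_iff.1 hU
    refine ⟨ε, hε, fun y hy => h ?_⟩
    rw [Metric.mem_ball, dist_eq_norm]
    exact hy
  · intro r
    have h : {x : F | NormedField.toAbsoluteValue F x ≤ r} = Metric.closedBall 0 r := by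
      ext y
      rw [Metric.mem_closedBall, dist_zero_right]
      rfl
    rw [h]
    exact isCompact_closedBall 0 r

theorem t2_nonarch (F : Type*) [Field F] [ValuativeRel F] [TopologicalSpace F]
    [IsNonarchimedeanLocalField F] : T2Space F := by
  let := IsTopologicalAddGroup.rightUniformSpace F
  have := isUniformAddGroup_of_addCommGroup (G := F)
  infer_instance

end RDT
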