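import Pool.Agent.Lib.MP_fee02f_an.TT.T09
import Pool.Agent.Lib.MP_fee02f_an.PP.P4

/-!
T11: stabilisers of vectors with closed orbit are closed and have `AdmH`.
-/

set_option autoImplicit false

namespace RDT

open RapidDecay RDG

theorem isClosed_stabilizer {F : Type*} [Field F] [TopologicalSpace F] [IsTopologicalRing F]
    [T2Space F] {n M : ℕ} (G : Subgroup (GL (Fin n) F)) (ρ : GL (Fin n) F →* GL (Fin M) F)
    (hρ : PP.IsRational ρ) (w : Fin M → F) (hG : ∀ g, g ∈ G ↔ (ρ g).1.mulVec w = w) :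
    IsClosed (G : Set (GL (Fin n) F)) := by
  obtain ⟨k, P, hP⟩ := hρ
  have h1 : (G : Set (GL (Fin n) F)) = ⋂ i : Fin M, {g : GL (Fin n) F |
      ∑ j, MvPolynomial.eval (fun p : Fin n × Fin n => g.1 p.1 p.2) (P i j) * w j =
        w i * g.1.det ^ k} := by
    ext g
    rw [SetLike.mem_coe, hG, Set.mem_iInter, funext_iff]
    refine forall_congr' fun i => ?_
    have hd : g.1.det ^ k ≠ 0 :=
      pow_ne_zero _ ((Matrix.isUnit_iff_isUnit_det _).1 g.isUnit).ne_zero
    have h2 : ∑ j, MvPolynomial.eval (fun p : Fin n × Fin n => g.1 p.1 p.2) (P i j) * w j =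
        ((ρ g).1.mulVec w i) * g.1.det ^ k := by
      rw [Matrix.mulVec, dotProduct, Finset.sum_mul]
      refine Finset.sum_congr rfl fun j _ => ?_
      rw [← hP]
      ring
    rw [Set.mem_ofPred_eq, h2]
    exact ⟨fun h => by rw [h], fun h => mul_right_cancel₀ hd h⟩
  rw [h1]
  have hval : Continuous fun g : GL (Fin n) F => g.1 := Units.continuous_val
  have hent : Continuous fun g : GL (Fin n) F => (fun p : Fin n × Fin n => g.1 p.1 p.2) :=
    continuous_pi fun p => hval.matrix_elem p.1 p.2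
  refine isClosed_iInter fun i => isClosed_eq ?_ ?_
  · refine continuous_finsetSum _ fun j _ => Continuous.mul ?_ continuous_const
    exact (MvPolynomial.continuous_eval (P i j)).comp hent
  · exact continuous_const.mul (hval.matrix_det.pow k)

theorem admH_closedOrbit.{w} {F : Type w} [Field F] [TopologicalSpace F] [IsTopologicalRing F]
    [T2Space F] {v : AbsoluteValue F ℝ} (hv : VTop F v) {n M : ℕ} (G : Subgroup (GL (Fin n) F))
    (ρ : GL (Fin n) F →* GL (Fin M) F) (hρ : PP.IsRational ρ) (w : Fin M → F)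
    (hw : IsClosed (Set.range fun g => (ρ g).1.mulVec w))
    (hG : ∀ g, g ∈ G ↔ (ρ g).1.mulVec w = w) : AdmH.{w, w} G :=
  admH_sub hv G (isClosed_stabilizer G ρ hρ w hG) (PP.cmid_of_closedOrbit v hv G ρ hρ w hw hG)

end RDT
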