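import Pool.Agent.Lib.MP_fee02f_an.TT.T02
import Pool.Agent.Lib.MP_fee02f_an.TT.T03
import Pool.Agent.Lib.MP_fee02f_an.TT.T04
import Pool.Agent.Lib.MP_fee02f_an.TT.T05
import Pool.Agent.Lib.MP_fee02f_an.TT.T10
import Pool.Agent.Lib.MP_fee02f_an.TT.T11

/-!
T12: the clauses of the final theorem.
-/

set_option autoImplicit false

namespace RDT

open RapidDecay RDG

/-- closed subgroups of `GL_n` over a non-archimedean local field all of whose compact subgroups are
conjugate into a compact set -/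
theorem admH_compactSubgroups.{w} (F : Type w) [Field F] [ValuativeRel F] [TopologicalSpace F]
    [IsNonarchimedeanLocalField F] (n : ℕ) (G : Subgroup (GL (Fin n) F))
    (hG : IsClosed (G : Set (GL (Fin n) F))) (hM : ∃ M : Set G, IsCompact M ∧
      ∀ C : Subgroup G, IsCompact (C : Set G) → ∃ l : G, ∀ c ∈ C, l⁻¹ * c * l ∈ M) :
    AdmH.{w, w} G := by
  have := t2_nonarch F
  obtain ⟨v, hv⟩ := vtop_nonarch F
  obtain ⟨U, hUo, hUc⟩ := exists_compact_open F n
  exact (admH_gl hv n).subgroup G hG (UHom.of_compact_subgroups U hUo hUc G hG hM)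

/-- discrete subgroups of `GL_n` over a non-archimedean local field -/
theorem rd_nonarch.{w} (F : Type w) [Field F] [ValuativeRel F] [TopologicalSpace F]
    [IsNonarchimedeanLocalField F] (n : ℕ) (Γ : Subgroup (GL (Fin n) F)) [DiscreteTopology Γ]
    (hb : ∃ b : ℕ, ∀ H : Subgroup Γ, (H : Set Γ).Finite → (H : Set Γ).ncard ≤ b) :
    PropertyRD Γ := by
  have := t2_nonarch F
  obtain ⟨v, hv⟩ := vtop_nonarch F
  obtain ⟨U, hUo, hUc⟩ := exists_compact_open F n
  exact (admH_gl hv n).rd Γ.subtype (udisc_of_bounded U hUo hUc Γ hb)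

/-- discrete subgroups of `GL_n` over a non-archimedean local field of characteristic zero -/
theorem rd_nonarch_charZero.{w} (F : Type w) [Field F] [ValuativeRel F] [TopologicalSpace F]
    [IsNonarchimedeanLocalField F] [CharZero F] (n : ℕ) (Γ : Subgroup (GL (Fin n) F))
    [DiscreteTopology Γ] : PropertyRD Γ :=
  rd_nonarch F n Γ (finite_subgroup_bound_of_injective Γ.subtype Subtype.val_injective
    (finite_subgroup_bound F n))

/-- subgroups of `GL_n(ℝ)` with a neighbourhood of the identity which meets all conjugates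
trivially -/
theorem rd_real (n : ℕ) (G : Subgroup (GL (Fin n) ℝ)) (Γ : Subgroup G)
    (h : ∃ ε : ℝ, 0 < ε ∧ ∀ (h : GL (Fin n) ℝ) (γ : Γ),
      (∀ i j, |(h.1 * γ.1.1.1 * h⁻¹.1 - 1) i j| < ε) → γ = 1) : PropertyRD Γ := by
  obtain ⟨ε, hε, h⟩ := h
  obtain ⟨v, -, hv⟩ := vtop_of_proper ℝ
  refine (admH_gl hv n).rd (G.subtype.comp Γ.subtype) (udisc_of_nhds _
    {x : GL (Fin n) ℝ | ∀ i j, |(x.1 - 1) i j| < ε} ?_ ?_)
  · have h1 : {x : GL (Fin n) ℝ | ∀ i j, |(x.1 - 1) i j| < ε} =
        ⋂ i, ⋂ j, {x : GL (Fin n) ℝ | |(x.1 - 1) i j| < ε} := by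
      ext x
      simp
    rw [h1]
    refine IsOpen.mem_nhds (isOpen_iInter_of_finite fun i => isOpen_iInter_of_finite fun j => ?_) ?_
    · refine isOpen_lt ?_ continuous_const
      have hval : Continuous fun x : GL (Fin n) ℝ => (x.1 - 1) :=
        Units.continuous_val.sub continuous_const
      exact (hval.matrix_elem i j).abs
    · simp [hε]
  · intro g γ hγ
    refine h g⁻¹ γ fun i j => ?_
    have h2 := hγ i j
    simpa using h2

end RDT
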