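import Pool.Agent.Lib.MP_fee02f_an.TT.T09
import Pool.Agent.Lib.MP_fee02f_an.GG.G05

/-!
T13: closed subgroups of `GL_n(F)` with a Cartan decomposition with respect to a split torus are
coarsely midpoint closed.
-/

set_option autoImplicit false

namespace RDT

open RapidDecay RDG

/-- the matrix `x diag(χ₁(s), ..., χₙ(s)) x⁻¹`, `χᵢ(s) = ∏ⱼ sⱼ ^ (a i j)` -/
noncomputable def torusMatrix {F : Type*} [Field F] {n r : ℕ} (x : GL (Fin n) F)
    (a : Fin n → Fin r → ℤ) (s : Fin r → Fˣ) : Matrix (Fin n) (Fin n) F :=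
  x.1 * Matrix.diagonal (fun i => ∏ j, (s j : F) ^ a i j) * (x⁻¹).1

/-- `G ≤ GL_n(F)` is closed and has a Cartan decomposition `G = C T C` with a compact set `C` and a
split torus `T = {x diag(χ₁(s), ..., χₙ(s)) x⁻¹ : s ∈ (F^×)^r}`, where `χᵢ(s) = ∏ⱼ sⱼ ^ (a i j)` -/
def CartanDecomposition {F : Type*} [Field F] [TopologicalSpace F] {n : ℕ}
    (G : Subgroup (GL (Fin n) F)) : Prop :=
  IsClosed (G : Set (GL (Fin n) F)) ∧
    ∃ (r : ℕ) (x : GL (Fin n) F) (a : Fin n → Fin r → ℤ) (C : Set (GL (Fin n) F)),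
      IsCompact C ∧ (∀ k ∈ C, k ∈ G) ∧ (∀ s : Fin r → Fˣ, ∃ t ∈ G, t.1 = torusMatrix x a s) ∧
      ∀ g ∈ G, ∃ k ∈ C, ∃ k' ∈ C, ∃ s : Fin r → Fˣ, g.1 = k.1 * torusMatrix x a s * k'.1

theorem T13_torus {F : Type*} [Field F] {n r : ℕ} (x : GL (Fin n) F) (a : Fin n → Fin r → ℤ)
    (s : Fin r → Fˣ) :
    torusMatrix x a s = (x * dg (fun i => ∏ j, s j ^ a i j) * x⁻¹ : GL (Fin n) F).1 := by
  rw [Units.val_mul, Units.val_mul, dg_val]
  unfold torusMatrix
  congr 3
  funext i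
  rw [Units.coe_prod]
  refine Finset.prod_congr rfl fun j _ => ?_
  rw [Units.val_zpow_eq_zpow_val]

theorem T13_log {F : Type*} [Field F] (v : AbsoluteValue F ℝ) {n r : ℕ} (a : Fin n → Fin r → ℤ)
    (s : Fin r → Fˣ) (i : Fin n) :
    Real.log (v ((∏ j, s j ^ a i j : Fˣ) : F)) = ∑ j, (a i j : ℝ) * Real.log (v (s j : F)) := by
  rw [Units.coe_prod, map_prod, Real.log_prod]
  · refine Finset.sum_congr rfl fun j _ => ?_
    rw [Units.val_zpow_eq_zpow_val, map_zpow₀, Real.log_zpow]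
  · intro j _
    exact (v.ne_zero_iff).2 (Units.ne_zero _)

theorem cmid_cartan {F : Type*} [Field F] [TopologicalSpace F] [IsTopologicalRing F]
    {v : AbsoluteValue F ℝ} (hv : VTop F v) {n : ℕ} (G : Subgroup (GL (Fin n) F))
    (hG : CartanDecomposition G) : CMid v G := by
  obtain ⟨-, r, x, a, C, hC, hCG, hT, hdec⟩ := hG
  obtain ⟨C₁, hC₁⟩ := bdd_of_compact hv C hC
  obtain ⟨ϖ, hϖ⟩ := hv.nontriv
  set q := Real.log (v (ϖ : F)) with hq
  have hq0 : 0 < q := Real.log_pos hϖ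
  set N : ℝ := ∑ i, ∑ j, |(a i j : ℝ)| with hN
  have hN0 : 0 ≤ N := Finset.sum_nonneg fun i _ => Finset.sum_nonneg fun j _ => abs_nonneg _
  have hx := ln_nonneg v x
  refine ⟨|C₁| + ln v x + q * N, fun c hc => ?_⟩
  obtain ⟨k, hk, k', hk', s, hs⟩ := hdec c hc
  obtain ⟨s', hs'⟩ := half v ϖ hϖ s
  have hk1 := hC₁ k hk
  have hk2 := hC₁ k' hk'
  have habs := le_abs_self C₁
  have hqN : 0 ≤ q * N := mul_nonneg hq0.le hN0
  refine ⟨k * x, x⁻¹ * k', fun i => ∏ j, s j ^ a i j, fun i => ∏ j, s' j ^ a i j, ?_, ?_, ?_, ?_,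
    k * (x * dg (fun i => ∏ j, s' j ^ a i j) * x⁻¹), ?_, ?_⟩
  · apply Units.ext
    rw [hs, T13_torus]
    simp only [← Units.val_mul]
    congr 1
    group
  · have := ln_mul_le v k x
    linarith
  · have := ln_mul_le v x⁻¹ k'
    rw [ln_inv] at this
    linarith
  · intro i
    rw [T13_log, T13_log, Finset.mul_sum, ← Finset.sum_sub_distrib]
    have h1 : |∑ j, (2 * ((a i j : ℝ) * Real.log (v (s' j : F))) -
        (a i j : ℝ) * Real.log (v (s j : F)))| ≤ q * N := by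
      refine (Finset.abs_sum_le_sum_abs _ _).trans ?_
      calc ∑ j, |2 * ((a i j : ℝ) * Real.log (v (s' j : F))) -
            (a i j : ℝ) * Real.log (v (s j : F))|
          ≤ ∑ j, q * |(a i j : ℝ)| := by
            refine Finset.sum_le_sum fun j _ => ?_
            have h2 : 2 * ((a i j : ℝ) * Real.log (v (s' j : F))) -
                (a i j : ℝ) * Real.log (v (s j : F)) =
                (a i j : ℝ) * (2 * Real.log (v (s' j : F)) - Real.log (v (s j : F))) := by ring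
            rw [h2, abs_mul, mul_comm]
            exact mul_le_mul_of_nonneg_right (hs' j) (abs_nonneg _)
        _ = q * ∑ j, |(a i j : ℝ)| := by rw [Finset.mul_sum]
        _ ≤ q * N := by
            apply mul_le_mul_of_nonneg_left _ hq0.le
            exact Finset.single_le_sum (f := fun i => ∑ j, |(a i j : ℝ)|)
              (fun i _ => Finset.sum_nonneg fun j _ => abs_nonneg _) (Finset.mem_univ i)
    refine h1.trans ?_
    have := abs_nonneg C₁
    linarith
  · obtain ⟨t, ht, hte⟩ := hT s'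
    rw [T13_torus] at hte
    have h1 : t = x * dg (fun i => ∏ j, s' j ^ a i j) * x⁻¹ := Units.ext hte
    rw [← h1]
    exact G.mul_mem (hCG k hk) ht
  · have h1 : (k * (x * dg (fun i => ∏ j, s' j ^ a i j) * x⁻¹))⁻¹ *
        (k * x * dg (fun i => ∏ j, s' j ^ a i j)) = x := by group
    rw [h1]
    have := abs_nonneg C₁
    linarith

theorem admH_cartan.{w} {F : Type w} [Field F] [TopologicalSpace F] [IsTopologicalRing F]
    [T2Space F] {v : AbsoluteValue F ℝ} (hv : VTop F v) {n : ℕ} (G : Subgroup (GL (Fin n) F))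
    (hG : CartanDecomposition G) : AdmH.{w, w} G :=
  admH_sub hv G hG.1 (cmid_cartan hv G hG)

end RDT
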